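import Pool.Agent.H910.Kh.Main

/-!
The classification of the entire curves in a hypersurface which is transversal to the rational normal
curve, outside the discriminant hypersurface and the hyperplane of the polynomials of lower degree.
(The lemmas `G0_top'`, `G_top'`, `G_sep'` are those of helper685 with a weaker hypothesis.)
-/

set_option autoImplicit false

open Polynomial

namespace Pool.Agent.H910.Kh

open R4

variable {m : ℕ}

/-- `F = 0` does not contain the constant polynomials and is transversal to the rational normal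
curve. -/
def Trv (F : MvPolynomial (Fin (m + 1)) ℂ) : Prop :=
  MvPolynomial.eval (Pi.single (Fin.last m) 1) F ≠ 0 ∧
    ∀ T : ℂ, MvPolynomial.eval (cf m ((X - C T) ^ m)) F = 0 →
      ∑ i, MvPolynomial.eval (cf m ((X - C T) ^ m)) (MvPolynomial.pderiv i F) *
        cf m ((X - C T) ^ (m - 1)) i ≠ 0

theorem Good.trv {F : MvPolynomial (Fin (m + 1)) ℂ} (hm : 1 ≤ m) (h : Good F) : Trv F :=
  ⟨h.1, fun T hT => h.2 T hT 1 le_rfl hm⟩

theorem G0_top' {F : MvPolynomial (Fin (m + 1)) ℂ} {d : ℕ} (hF : F.IsHomogeneous d)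
    (hg : Trv F) (c : Fin m → ℂ) : ((G F c).map (evalRingHom 0)).coeff (d * m) ≠ 0 := by
  rw [G0_eq, top hF _ m (fun l => (w0_natDegree l).trans (by have := l.2; omega))]
  have h : (fun i => (cf m ((X + C (-X) : ℂ[X][X]) ^ m) i).coeff m) =
      fun i => (-1) ^ m * (Pi.single (Fin.last m) 1 : Fin (m + 1) → ℂ) i := funext w0_top
  rw [h, R4.eval_smul hF]
  exact mul_ne_zero (pow_ne_zero _ (pow_ne_zero _ (by norm_num))) hg.1

theorem G_top' {F : MvPolynomial (Fin (m + 1)) ℂ} {d : ℕ} (hF : F.IsHomogeneous d)
    (hg : Trv F) (c : Fin m → ℂ) : (G F c).coeff (d * m) ≠ 0 := by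
  intro h
  refine G0_top' hF hg c ?_
  rw [coeff_map, h, map_zero]

theorem G_sep' {F : MvPolynomial (Fin (m + 1)) ℂ} (hm : 1 ≤ m) (hg : Trv F) (c : Fin m → ℂ) :
    ((G F c).map (evalRingHom (0 : ℂ))).Separable := by
  rw [separable_def, isCoprime_iff_aeval_ne_zero_of_isAlgClosed ℂ ℂ]
  intro T
  by_cases hT : ((G F c).map (evalRingHom (0 : ℂ))).eval T = 0
  · right
    change (derivative ((G F c).map (evalRingHom (0 : ℂ)))).eval T ≠ 0
    rw [← taylor_coeff_one]
    have h1 : Polynomial.taylor T ((G F c).map (evalRingHom (0 : ℂ))) = Phi F (fun _ => 1) T := by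
      refine Polynomial.funext fun A => ?_
      rw [taylor_eval, G_eval_zero, Phi_eval]
      have h : ∏ _j : Fin m, (X - C (A * 1 + T)) = (X - C (A + T)) ^ m := by
        rw [Finset.prod_const, Finset.card_univ, Fintype.card_fin, mul_one]
      rw [h, add_comm A T]
    rw [h1, Phi_coeff F _ T 1 le_rfl hm (fun i h1 h2 => by omega)]
    rw [G_eval_zero] at hT
    refine mul_ne_zero (mul_ne_zero (by norm_num) ?_) (hg.2 T hT)
    unfold es
    rw [Finset.sum_congr rfl (fun t _ => Finset.prod_const_one), Finset.sum_const,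
      Finset.card_powersetCard, Finset.card_univ, Fintype.card_fin, Nat.choose_one_right,
      nsmul_eq_mul, mul_one]
    exact_mod_cast (by omega : m ≠ 0)
  · left
    exact hT

/-- **Classification**, in terms of the roots. -/
theorem classify {d : ℕ} (hm : 2 ≤ m) {F : MvPolynomial (Fin (m + 1)) ℂ} (hF : F.IsHomogeneous d)
    (hg : Trv F) {a b : ℂ → ℂ} {c : Fin m → ℂ} (ha : Differentiable ℂ a) (hb : Differentiable ℂ b)
    (ha0 : ∀ z, a z ≠ 0)
    (h : ∀ z, MvPolynomial.eval (cf m (∏ j, (X - C (a z * c j + b z)))) F = 0) :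
    (∀ z w, a z = a w ∧ b z = b w) ∨ ∃ α β : ℂ, (∀ z, b z = α * a z + β) ∧
      ∀ A, MvPolynomial.eval (cf m (∏ j, (X - C (A * (c j + α) + β)))) F = 0 := by
  have hz : ∀ z, ((G F c).map (evalRingHom (a z))).eval (b z) = 0 := fun z => by
    rw [G_eval]
    exact h z
  rcases t_alg a b ha hb ha0 (G F c) (d * m) (fun j hj => (G_TD hF c).le j hj) (G_top' hF hg c)
    (G_sep' (by omega) hg c) hz with ⟨a₀, haa⟩ | ⟨α, β, hab⟩
  · left
    have hq : (G F c).map (evalRingHom a₀) ≠ 0 := by
      intro h0
      have h1 : ((G F c).map (evalRingHom a₀)).coeff (d * m) = 0 := by rw [h0, coeff_zero]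
      have h2 := (G_TD hF c).le _ (G_top' hF hg c)
      have h3 : ((G F c).coeff (d * m)).natDegree = 0 := by omega
      have h4 := eq_C_of_natDegree_eq_zero h3
      rw [coeff_map, h4, coe_evalRingHom, eval_C] at h1
      rw [h1, map_zero] at h4
      exact G_top' hF hg c h4
    have hb' : (Set.range b).Finite := by
      refine ((G F c).map (evalRingHom a₀)).roots.toFinset.finite_toSet.subset ?_
      rintro _ ⟨z, rfl⟩
      rw [Finset.mem_coe, Multiset.mem_toFinset, mem_roots hq, IsRoot.def, ← haa z]
      exact hz z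
    intro z w
    exact ⟨by rw [haa, haa], const_of_finite hb.continuous hb' z w⟩
  · by_cases hfin : (Set.range a).Finite
    · left
      intro z w
      have h1 := const_of_finite ha.continuous hfin z w
      exact ⟨h1, by rw [hab, hab, h1]⟩
    · right
      refine ⟨α, β, hab, ?_⟩
      obtain ⟨c', hc'⟩ : ∃ c' : Fin m → ℂ, c' = fun j => c j + α := ⟨_, rfl⟩
      have hroot : ∀ z, (Phi F c' β).eval (a z) = 0 := by
        intro z
        rw [Phi_eval, ← h z]
        have h1 : ∏ j, (X - C (a z * c' j + β)) = ∏ j, (X - C (a z * c j + b z)) := by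
          refine Finset.prod_congr rfl fun j _ => ?_
          rw [hab z, hc']
          congr 2
          ring
        rw [h1]
      have hPhi : Phi F c' β = 0 := by
        refine eq_zero_of_infinite_isRoot _ (Set.Infinite.mono ?_ hfin)
        rintro _ ⟨z, rfl⟩
        exact hroot z
      intro A
      have h1 := Phi_eval F c' β A
      rw [hPhi, eval_zero, hc'] at h1
      exact h1.symm

theorem natDegree_prod_lin (r : Fin m → ℂ) : (∏ j, (X - C (r j))).natDegree = m := by
  rw [natDegree_prod_of_monic _ _ fun j _ => monic_X_sub_C _]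
  simp

/-- a polynomial of degree at most `m` is given by its coefficients -/
theorem pl_cf {p : ℂ[X]} (hp : p.natDegree ≤ m) : pl (cf m p) = p := by
  ext k
  rcases le_or_gt k m with hk | hk
  · have h1 := coeff_pl (cf m p) ⟨m - k, by omega⟩
    have h2 : m - (((⟨m - k, by omega⟩ : Fin (m + 1))) : ℕ) = k := by
      change m - (m - k) = k
      omega
    rw [h2] at h1
    rw [h1]
    unfold cf
    rw [h2]
  · rw [coeff_eq_zero_of_natDegree_lt (lt_of_le_of_lt hp hk)]
    apply coeff_eq_zero_of_natDegree_lt
    refine lt_of_le_of_lt ?_ hk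
    unfold pl
    refine natDegree_sum_le_of_forall_le _ _ fun l _ => ?_
    exact (natDegree_C_mul_X_pow_le _ _).trans (Nat.sub_le _ _)

/-- **The criterion.** -/
theorem hyp_iff {d : ℕ} (hm : 2 ≤ m) {F : MvPolynomial (Fin (m + 1)) ℂ} (hF : F.IsHomogeneous d)
    (hg : Trv F) :
    (∀ f : ℂ → Fin (m + 1) → ℂ, Differentiable ℂ f → (∀ z, MvPolynomial.eval (f z) F = 0) →
      (∀ z, f z 0 ≠ 0 ∧ (pl (f z)).Separable) → ∀ z, ∃ c : ℂ, f z = c • f 0) ↔
    ∀ (β : ℂ) (c : Fin m → ℂ), Function.Injective c →
      ∃ A : ℂ, MvPolynomial.eval (cf m (∏ j, (X - C (A * c j + β)))) F ≠ 0 := by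
  constructor
  · intro h β c hc
    by_contra hcon
    push Not at hcon
    obtain ⟨p, hp⟩ : ∃ p : ℂ → ℂ[X], p = fun A => ∏ j, (X - C (A * c j + β)) := ⟨_, rfl⟩
    have hpdeg : ∀ A, (p A).natDegree = m := fun A => by
      rw [hp]
      exact natDegree_prod_lin _
    have hpm : ∀ A, (p A).Monic := fun A => by
      rw [hp]
      exact monic_prod_of_monic _ _ fun j _ => monic_X_sub_C _
    have hp0 : ∀ A, cf m (p A) 0 = 1 := fun A => by
      have h1 := (hpm A).coeff_natDegree
      rw [hpdeg] at h1
      exact h1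
    -- the coefficients are polynomials in `A`
    obtain ⟨P, hP⟩ : ∃ P : ℂ[X][X], P = ∏ j, (X - C (C β + X * C (c j))) := ⟨_, rfl⟩
    have hPA : ∀ A, P.map (evalRingHom A) = p A := by
      intro A
      rw [hP, hp, Polynomial.map_prod]
      refine Finset.prod_congr rfl fun j _ => ?_
      simp
      ring
    have hcoef : ∀ A l, cf m (p A) l = (P.coeff (m - (l : ℕ))).eval A := by
      intro A l
      unfold cf
      rw [← hPA, coeff_map, coe_evalRingHom]
    have h1 := h (fun z => cf m (p (Complex.exp z))) (by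
        rw [differentiable_pi]
        intro l
        have h2 : (fun z => cf m (p (Complex.exp z)) l) =
            fun z => (P.coeff (m - (l : ℕ))).eval (Complex.exp z) := funext fun z => hcoef _ _
        rw [h2]
        exact (P.coeff (m - (l : ℕ))).differentiable.comp Complex.differentiable_exp)
      (fun z => by
        have := hcon (Complex.exp z)
        rw [hp]
        exact this)
      (fun z => ⟨by
        change cf m (p (Complex.exp z)) 0 ≠ 0
        rw [hp0]
        exact one_ne_zero, by
        change (pl (cf m (p (Complex.exp z)))).Separable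
        rw [pl_cf (hpdeg _).le, hp]
        refine separable_prod_X_sub_C_iff'.2 fun i _ j _ hij => ?_
        have h2 : Complex.exp z * c i = Complex.exp z * c j := add_right_cancel hij
        exact hc (mul_left_cancel₀ (Complex.exp_ne_zero z) h2)⟩)
    have h2 : ∀ z, p (Complex.exp z) = p 1 := by
      intro z
      obtain ⟨t, ht⟩ := h1 z
      simp only [Complex.exp_zero] at ht
      have h3 := congrFun ht 0
      rw [Pi.smul_apply, hp0, hp0, smul_eq_mul, mul_one] at h3
      rw [← h3, one_smul] at ht
      have h4 := congrArg pl ht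
      rwa [pl_cf (hpdeg _).le, pl_cf (hpdeg _).le] at h4
    obtain ⟨j, hj⟩ : ∃ j, c j ≠ 0 := by
      by_contra hall
      push Not at hall
      have h3 : (⟨0, by omega⟩ : Fin m) = ⟨1, by omega⟩ := hc (by rw [hall, hall])
      rw [Fin.mk.injEq] at h3
      omega
    have hroot : ∀ z, (p 1).eval (Complex.exp z * c j + β) = 0 := by
      intro z
      rw [← h2 z, hp, eval_prod]
      exact Finset.prod_eq_zero (Finset.mem_univ j) (by simp)
    have hinf : (Set.range fun z => Complex.exp z * c j + β).Infinite := by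
      intro hfin
      have h3 := const_of_finite (f := fun z => Complex.exp z * c j + β) (by fun_prop) hfin 0
        (Real.log 2 : ℂ)
      simp only [Complex.exp_zero, one_mul] at h3
      have h4 : Complex.exp (Real.log 2 : ℂ) = 2 := by
        rw [← Complex.ofReal_exp, Real.exp_log (by norm_num)]
        norm_num
      rw [h4] at h3
      have h5 : c j = 2 * c j := add_right_cancel h3
      apply hj
      linear_combination -h5
    have h3 : p 1 = 0 := eq_zero_of_infinite_isRoot _ (hinf.mono (by
      rintro _ ⟨z, rfl⟩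
      exact hroot z))
    exact (hpm 1).ne_zero h3
  · intro hcrit f hf hmem hoff
    obtain ⟨a, b, c, ha, hb, hane, hc, hpl⟩ := t_roots m hm f hf (fun z => (hoff z).1)
      (fun z => (hoff z).2)
    have hfz : ∀ z, f z = f z 0 • cf m (∏ j, (X - C (a z * c j + b z))) := by
      intro z
      funext l
      have h1 := coeff_pl (f z) l
      rw [hpl z, coeff_C_mul] at h1
      rw [Pi.smul_apply, smul_eq_mul]
      exact h1.symm
    have hmem' : ∀ z, MvPolynomial.eval (cf m (∏ j, (X - C (a z * c j + b z)))) F = 0 := by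
      intro z
      have h1 := hmem z
      rw [hfz z] at h1
      have h2 : MvPolynomial.eval (f z 0 • cf m (∏ j, (X - C (a z * c j + b z)))) F =
          f z 0 ^ d * MvPolynomial.eval (cf m (∏ j, (X - C (a z * c j + b z)))) F := by
        have h3 := Pool.Agent.W602.GT.val_smul (L := ℂ) hF (f z 0)
          (cf m (∏ j, (X - C (a z * c j + b z))))
        unfold Pool.Agent.W602.GT.val at h3
        rw [aeval_eq, aeval_eq] at h3
        exact h3
      rw [h2] at h1
      exact (mul_eq_zero.1 h1).resolve_left (pow_ne_zero _ (hoff z).1)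
    rcases classify hm hF hg ha hb hane hmem' with hconst | ⟨α, β, -, hA⟩
    · intro z
      refine ⟨f z 0 / f 0 0, ?_⟩
      obtain ⟨h1, h2⟩ := hconst z 0
      have e1 : f z = f z 0 • cf m (∏ j, (X - C (a 0 * c j + b 0))) := by
        have := hfz z
        rwa [h1, h2] at this
      have e2 : (f z 0 / f 0 0) • f 0 = (f z 0 / f 0 0 * f 0 0) •
          cf m (∏ j, (X - C (a 0 * c j + b 0))) := by
        rw [← smul_smul, ← hfz 0]
      rw [e2, div_mul_cancel₀ _ (hoff 0).1]
      exact e1
    · exfalso
      obtain ⟨A, hA'⟩ := hcrit β (fun j => c j + α) (fun i j hij => hc (add_right_cancel hij))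
      exact hA' (hA A)

end Pool.Agent.H910.Kh
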