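import Pool.Agent.H910.Kh.Pol
import Pool.Agent.H910.Lp.Rat

/-!
Rational curves with two boundary points and simple points over zero are lines.
-/

set_option autoImplicit false
set_option linter.unusedSectionVars false
set_option linter.unusedVariables false

namespace Pool.Agent.H910.Kh

open FF IntermediateField Polynomial
open Pool.Agent.W603.LV
open Pool.Agent.W619.PQ
open Pool.Agent.TH143.LG

variable {E : Type} [Field E] [Algebra ℂ E] [IsFF ℂ E]

/-- the value of `G` at a point -/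
noncomputable def ev2 (A B : E) (G : ℂ[X][X]) : E := G.eval₂ (aeval A : ℂ[X] →ₐ[ℂ] E).toRingHom B

theorem exists_zero {A : E} (hA : Transcendental ℂ A) : ∃ P : Place ℂ E, 0 < P.ord A := by
  obtain ⟨S, hS, -, hsum⟩ := zeros (k := ℂ) hA
  by_contra hcon
  push Not at hcon
  have h1 : S = ∅ := by
    rw [Finset.eq_empty_iff_forall_notMem]
    intro w hw
    have := (hS w).1 hw
    have := hcon w
    omega
  rw [h1, Finset.sum_empty] at hsum
  have hfin : FiniteDimensional ℂ⟮A⟯ E := IsFF.finite hA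
  have := Module.finrank_pos (R := ℂ⟮A⟯) (M := E)
  omega

theorem exists_pole {A : E} (hA : Transcendental ℂ A) : ∃ P : Place ℂ E, P.ord A < 0 := by
  have h1 : Transcendental ℂ A⁻¹ := by
    intro h
    apply hA
    have := h.inv
    rwa [inv_inv] at this
  obtain ⟨P, hP⟩ := exists_zero h1
  refine ⟨P, ?_⟩
  rw [P.ord_inv] at hP
  omega

theorem reg_of_int {A B : E} {G : ℂ[X][X]} {D : ℕ}
    (hG : ∀ j, G.coeff j ≠ 0 → (G.coeff j).natDegree + j ≤ D) (hD : G.coeff D ≠ 0)
    (h0 : ev2 A B G = 0) (P : Place ℂ E) (hA : 0 ≤ P.ord A) : 0 ≤ P.ord B := by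
  by_contra hcon
  rw [not_le] at hcon
  have hB0 : B ≠ 0 := by
    rintro rfl
    rw [P.ord_zero] at hcon
    omega
  have hGd : G.natDegree ≤ D := by
    rw [natDegree_le_iff_coeff_eq_zero]
    intro j hj
    by_contra h0
    have := hG j h0
    omega
  have hD0 : (G.coeff D).natDegree = 0 := by
    have := hG D hD
    omega
  obtain ⟨γ, hγ⟩ : ∃ γ, G.coeff D = C γ := ⟨_, eq_C_of_natDegree_eq_zero hD0⟩
  have hγ0 : γ ≠ 0 := by
    rintro rfl
    rw [C_0] at hγ
    exact hD hγ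
  unfold ev2 at h0
  rw [eval₂_eq_sum_range' _ (lt_of_le_of_lt hGd (Nat.lt_succ_self D)), Finset.sum_range_succ] at h0
  have h1 : ((aeval A : ℂ[X] →ₐ[ℂ] E).toRingHom) (G.coeff D) = algebraMap ℂ E γ := by
    rw [hγ]
    exact aeval_C A γ
  rw [h1] at h0
  have hγE : algebraMap ℂ E γ ≠ 0 := by rwa [Ne, map_eq_zero]
  have h2 : Ge P (((D : ℤ) - 1) * P.ord B)
      (∑ i ∈ Finset.range D, ((aeval A : ℂ[X] →ₐ[ℂ] E).toRingHom) (G.coeff i) * B ^ i) := by
    refine Ge.sum _ _ fun i hi => ?_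
    rw [Finset.mem_range] at hi
    have h3 : Ge P 0 (((aeval A : ℂ[X] →ₐ[ℂ] E).toRingHom) (G.coeff i)) :=
      Pool.Agent.TH143.LG.ge_aeval (Or.inr hA) (G.coeff i)
    have h4 : Ge P (i * P.ord B) (B ^ i) := Or.inr (by rw [P.ord_pow])
    refine (h3.mul h4).mono ?_
    have h5 : (i : ℤ) ≤ D - 1 := by
      have : (i : ℤ) < D := by exact_mod_cast hi
      omega
    nlinarith
  have h3 : algebraMap ℂ E γ * B ^ D = - ∑ i ∈ Finset.range D,
      ((aeval A : ℂ[X] →ₐ[ℂ] E).toRingHom) (G.coeff i) * B ^ i := by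
    linear_combination h0
  have h4 : Ge P (((D : ℤ) - 1) * P.ord B) (algebraMap ℂ E γ * B ^ D) := by
    rw [h3]
    exact h2.neg
  have h5 := h4.resolve_left (mul_ne_zero hγE (pow_ne_zero _ hB0))
  rw [P.ord_mul hγE (pow_ne_zero _ hB0), P.ord_const hγ0, P.ord_pow, zero_add] at h5
  nlinarith

theorem ev2_aeval (t : E) (p q : ℂ[X]) (G : ℂ[X][X]) :
    ev2 (aeval t p) (aeval t q) G = aeval t ((G.map (compRingHom p)).eval q) := by
  unfold ev2
  have h1 := hom_eval₂ (G.map (compRingHom p)) (RingHom.id _)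
    ((aeval t : ℂ[X] →ₐ[ℂ] E).toRingHom) q
  rw [eval₂_id, RingHom.comp_id, eval₂_map] at h1
  change aeval t (eval q (G.map (compRingHom p))) = _ at h1
  rw [h1]
  have h2 : ((aeval t : ℂ[X] →ₐ[ℂ] E).toRingHom).comp (compRingHom p) =
      (aeval (aeval t p) : ℂ[X] →ₐ[ℂ] E).toRingHom := by
    ext x
    · simp
    · simp
  rw [h2]
  rfl

/-- **The algebraic step.** -/
theorem line_of {A B : E} (hA : Transcendental ℂ A)
    (hgen : IntermediateField.adjoin ℂ ({A, B} : Set E) = ⊤) {G : ℂ[X][X]} {D : ℕ}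
    (hG : ∀ j, G.coeff j ≠ 0 → (G.coeff j).natDegree + j ≤ D) (hD : G.coeff D ≠ 0)
    (hs : (G.map (evalRingHom (0 : ℂ))).Separable) (h0 : ev2 A B G = 0)
    (S : Finset (Place ℂ E)) (hc : canDeg ℂ E + S.card ≤ 0)
    (hSz : ∀ P : Place ℂ E, P.ord A ≠ 0 → P ∈ S) :
    ∃ α β : ℂ, B = algebraMap ℂ E α * A + algebraMap ℂ E β := by
  classical
  obtain ⟨P0, hP0⟩ := exists_zero hA
  obtain ⟨P1, hP1⟩ := exists_pole hA
  have hne : P0 ≠ P1 := by
    rintro rfl
    omega
  have hsub : ({P0, P1} : Finset (Place ℂ E)) ⊆ S := by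
    intro P hP
    simp only [Finset.mem_insert, Finset.mem_singleton] at hP
    rcases hP with rfl | rfl
    · exact hSz _ (by omega)
    · exact hSz _ (by omega)
  have hcard2 := Finset.card_le_card hsub
  rw [Finset.card_pair hne] at hcard2
  have hneg : canDeg ℂ E < 0 := by omega
  have hcan := Pool.Agent.Q72.NA.canDeg_of_neg hneg
  have hS2 : S.card ≤ 2 := by omega
  have hSeq : S = {P0, P1} := by
    symm
    apply Finset.eq_of_subset_of_card_le hsub
    rw [Finset.card_pair hne]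
    exact hS2
  obtain ⟨t, ht, ht1, htS⟩ : ∃ t : E, ℂ⟮t⟯ = ⊤ ∧ P1.ord t < 0 ∧ ∀ P ∈ S, P.ord t ≠ 0 := by
    obtain ⟨t0, ht0, h1⟩ := Pool.Agent.H910.Lp.exists_gen2 hneg hS2
    have h2 := h1 P1 (by rw [hSeq]; simp)
    rcases lt_or_gt_of_ne h2 with h3 | h3
    · exact ⟨t0, ht0, h3, h1⟩
    · refine ⟨t0⁻¹, by rw [adjoin_inv, ht0], by rw [P1.ord_inv]; omega, fun P hP => ?_⟩
      rw [P.ord_inv]
      have := h1 P hP
      omega
  have htr := transcendental_of_top ht
  obtain ⟨Pp, hPp, hPp'⟩ := pole_unique ht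
  have hP1t : P1.ord t = -1 := by rw [hPp' P1 ht1, hPp]
  have hP0t : 0 < P0.ord t := by
    have h1 := htS P0 (by rw [hSeq]; simp)
    by_contra hcon
    apply hne
    rw [hPp' P0 (by omega), hPp' P1 ht1]
  have hAreg : ∀ P : Place ℂ E, P ≠ P1 → 0 ≤ P.ord A := by
    intro P hP
    by_contra hcon
    have h1 := hSz P (by omega)
    rw [hSeq] at h1
    simp only [Finset.mem_insert, Finset.mem_singleton] at h1
    rcases h1 with rfl | h1
    · omega
    · exact hP h1
  obtain ⟨pA, hpA⟩ := poly_of_reg ht ht1 hAreg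
  obtain ⟨q, hq⟩ := poly_of_reg ht ht1 fun P hP => reg_of_int hG hD h0 P (hAreg P hP)
  have hA0 : A ≠ 0 := by
    rintro rfl
    exact hA isAlgebraic_zero
  have hpA0 : pA ≠ 0 := by
    rintro rfl
    rw [map_zero] at hpA
    exact hA0 hpA
  -- the only root is zero
  have hroot : ∀ r : ℂ, pA.eval r = 0 → r = 0 := by
    intro r hr
    obtain ⟨p', hp'⟩ := dvd_iff_isRoot.2 hr
    obtain ⟨Pr, hPr, -⟩ := zero_unique (top_sub ht r)
    have h1 : 0 ≤ Pr.ord t := by
      by_contra hcon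
      have h2 : Ge Pr 0 (t - algebraMap ℂ E r) := Or.inr (by omega)
      have h3 := h2.add (Ge.const r)
      rw [sub_add_cancel] at h3
      rcases h3 with h3 | h3
      · rw [h3, Pr.ord_zero] at hcon
        omega
      · omega
    have h2 : Ge Pr 1 A := by
      rw [hpA, hp', map_mul, map_sub, aeval_X, aeval_C]
      have h3 : Ge Pr 1 (t - algebraMap ℂ E r) := Or.inr (by omega)
      have h4 := h3.mul (Pool.Agent.TH143.LG.ge_aeval (P := Pr) (Or.inr h1) p')
      rwa [add_zero] at h4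
    have h3 := h2.resolve_left hA0
    have h4 := hSz Pr (by omega)
    have h5 := htS Pr h4
    have h6 : Ge Pr 1 (algebraMap ℂ E r) := by
      have h7 : Ge Pr 1 t := Or.inr (by omega)
      have h8 : Ge Pr 1 (t - algebraMap ℂ E r) := Or.inr (by omega)
      have h9 := h7.sub h8
      rwa [sub_sub_cancel] at h9
    rcases h6 with h6 | h6
    · exact (map_eq_zero _).1 h6
    · by_contra hr0
      rw [Pr.ord_const hr0] at h6
      omega
  obtain ⟨e, c, hc0, hpe⟩ : ∃ (e : ℕ) (c : ℂ), c ≠ 0 ∧ pA = C c * X ^ e := by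
    obtain ⟨p', hp1, hp2⟩ := exists_eq_pow_rootMultiplicity_mul_and_not_dvd pA hpA0 0
    have h1 : p'.degree = 0 := by
      by_contra hdeg
      obtain ⟨r, hr⟩ := IsAlgClosed.exists_root p' hdeg
      have h2 : pA.eval r = 0 := by
        rw [hp1, eval_mul, hr, mul_zero]
      have h3 := hroot r h2
      rw [h3] at hr
      exact hp2 (dvd_iff_isRoot.2 hr)
    obtain ⟨c, hc⟩ : ∃ c, p' = C c := ⟨_, eq_C_of_degree_eq_zero h1⟩
    refine ⟨rootMultiplicity 0 pA, c, ?_, ?_⟩
    · rintro rfl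
      rw [hc, C_0, degree_zero] at h1
      simp at h1
    · rw [hc, C_0, sub_zero, mul_comm] at hp1
      exact hp1
  have he : 0 < e := by
    rcases Nat.eq_zero_or_pos e with rfl | h
    · exfalso
      apply hA
      rw [hpA, hpe, pow_zero, mul_one, aeval_C]
      exact isAlgebraic_algebraMap c
    · exact h
  have hrel : (G.map (compRingHom pA)).eval q = 0 := by
    have h1 := ev2_aeval t pA q G
    rw [← hpA, ← hq, h0] at h1
    exact (transcendental_iff.1 htr) _ h1.symm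
  rw [hpe] at hrel
  have hexp := eq_expand he (coeff_param hs he hrel)
  have htop : ℂ⟮t ^ e⟯ = ⊤ := by
    rw [eq_top_iff, ← hgen, IntermediateField.adjoin_le_iff]
    have hmem : ∀ p : ℂ[X], aeval (t ^ e) p ∈ ℂ⟮t ^ e⟯ := fun p =>
      IntermediateField.algebra_adjoin_le_adjoin ℂ {t ^ e} (aeval_mem_adjoin_singleton ℂ (t ^ e))
    rintro y (rfl | hy)
    · rw [hpA, hpe]
      have h1 := hmem (C c * X)
      rw [map_mul, aeval_C, aeval_X] at h1
      rw [map_mul, aeval_C, map_pow, aeval_X]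
      exact h1
    · rw [Set.mem_singleton_iff] at hy
      rw [hy, hq, hexp, expand_aeval]
      exact hmem _
  obtain ⟨P2, hP2, -⟩ := zero_unique htop
  rw [P2.ord_pow] at hP2
  have he1 : e = 1 := by
    have h1 : (e : ℤ) ∣ 1 := ⟨_, hP2.symm⟩
    have h2 := Int.eq_one_of_dvd_one (by omega) h1
    exact_mod_cast h2
  subst he1
  have hdeg := natDegree_le_one hG hD hrel
  refine ⟨q.coeff 1 / c, q.coeff 0, ?_⟩
  have hcE : algebraMap ℂ E c ≠ 0 := by rwa [Ne, map_eq_zero]
  rw [hq, hpA, hpe]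
  conv_lhs => rw [eq_X_add_C_of_natDegree_le_one hdeg]
  rw [map_add, map_mul, aeval_C, aeval_X, aeval_C, map_mul, aeval_C, map_pow, aeval_X, pow_one,
    map_div₀]
  field_simp

end Pool.Agent.H910.Kh
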