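import Pool.Agent.H910.Kh.Crv
import Pool.Agent.H910.Lp.Ccl
import Pool.Agent.H910.Lp.Lcl

/-!
Algebraic relations between an entire function without zeros and an entire function.
-/

set_option autoImplicit false
set_option linter.unusedSectionVars false
set_option linter.unusedVariables false

namespace Pool.Agent.H910.Kh

open FF IntermediateField
open Pool.Agent.W603.LV
open Pool.Agent.W619.PQ
open Pool.Agent.W602.GT (val IsForm coords)
open Pool.Agent.W603.PV (pord pord_le)
open Pool.Agent.H916 (Meets)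
open Pool.Agent.H910.Cf (Entire meets_fin)

section hom

variable {L : Type} [Field L] [Algebra ℂ L]

/-- the homogenization -/
noncomputable def hmg (D : ℕ) (G : Polynomial (Polynomial ℂ)) : MvPolynomial (Fin 3) ℂ :=
  ∑ j ∈ Finset.range (D + 1), ∑ i ∈ Finset.range (D + 1 - j),
    MvPolynomial.C ((G.coeff j).coeff i) *
      (MvPolynomial.X 1 ^ i * MvPolynomial.X 2 ^ j * MvPolynomial.X 0 ^ (D - j - i))

theorem hmg_hom (D : ℕ) (G : Polynomial (Polynomial ℂ)) : (hmg D G).IsHomogeneous D := by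
  unfold hmg
  refine MvPolynomial.IsHomogeneous.sum _ _ _ fun j hj => ?_
  refine MvPolynomial.IsHomogeneous.sum _ _ _ fun i hi => ?_
  rw [Finset.mem_range] at hi hj
  have h1 : D = 0 + (i + j + (D - j - i)) := by omega
  conv => arg 2; rw [h1]
  refine (MvPolynomial.isHomogeneous_C _ _).mul (((MvPolynomial.isHomogeneous_X_pow _ _).mul
    (MvPolynomial.isHomogeneous_X_pow _ _)).mul (MvPolynomial.isHomogeneous_X_pow _ _))

theorem hmg_val {D : ℕ} {G : Polynomial (Polynomial ℂ)}
    (hG : ∀ j, G.coeff j ≠ 0 → (G.coeff j).natDegree + j ≤ D) (y : Fin 3 → L) (h0 : y 0 ≠ 0) :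
    MvPolynomial.aeval y (hmg D G) = y 0 ^ D * ev2 (y 1 / y 0) (y 2 / y 0) G := by
  have hGd : G.natDegree < D + 1 := by
    refine Nat.lt_succ_of_le ?_
    rw [Polynomial.natDegree_le_iff_coeff_eq_zero]
    intro j hj
    by_contra h0
    have := hG j h0
    omega
  unfold hmg ev2
  rw [Polynomial.eval₂_eq_sum_range' _ hGd, Finset.mul_sum, map_sum]
  refine Finset.sum_congr rfl fun j hj => ?_
  rw [Finset.mem_range] at hj
  have h1 : (G.coeff j).natDegree < D + 1 - j := by
    by_cases h2 : G.coeff j = 0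
    · rw [h2, Polynomial.natDegree_zero]
      omega
    · have := hG j h2
      omega
  have h2 : ((Polynomial.aeval (y 1 / y 0) : Polynomial ℂ →ₐ[ℂ] L).toRingHom) (G.coeff j) =
      ∑ i ∈ Finset.range (D + 1 - j), algebraMap ℂ L ((G.coeff j).coeff i) * (y 1 / y 0) ^ i := by
    change Polynomial.aeval (y 1 / y 0) (G.coeff j) = _
    rw [Polynomial.aeval_eq_sum_range' h1]
    refine Finset.sum_congr rfl fun i _ => ?_
    rw [Algebra.smul_def]
  rw [h2, map_sum, Finset.sum_mul, Finset.mul_sum]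
  refine Finset.sum_congr rfl fun i hi => ?_
  rw [Finset.mem_range] at hi
  simp only [map_mul, MvPolynomial.aeval_C, map_pow, MvPolynomial.aeval_X]
  have h3 : y 0 ^ D = y 0 ^ (D - j - i) * y 0 ^ i * y 0 ^ j := by
    rw [← pow_add, ← pow_add]
    congr 1
    omega
  rw [h3, div_pow, div_pow]
  have h4 : y 0 ^ i ≠ 0 := pow_ne_zero _ h0
  have h5 : y 0 ^ j ≠ 0 := pow_ne_zero _ h0
  field_simp

end hom

section trd

variable {E : Type} [Field E] [Algebra ℂ E]

theorem trdeg_le_one {A B : E}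
    (hgen : IntermediateField.adjoin ℂ ({A, B} : Set E) = ⊤) {G : Polynomial (Polynomial ℂ)} {D : ℕ}
    (hG : ∀ j, G.coeff j ≠ 0 → (G.coeff j).natDegree + j ≤ D) (hD : G.coeff D ≠ 0)
    (h0 : ev2 A B G = 0) : Algebra.trdeg ℂ E ≤ (1 : ℕ) := by
  have hD0 : (G.coeff D).natDegree = 0 := by
    have := hG D hD
    omega
  obtain ⟨γ, hγ⟩ : ∃ γ, G.coeff D = Polynomial.C γ :=
    ⟨_, Polynomial.eq_C_of_natDegree_eq_zero hD0⟩
  have hγ0 : γ ≠ 0 := by
    rintro rfl
    rw [Polynomial.C_0] at hγ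
    exact hD hγ
  have hAm : A ∈ ℂ⟮A⟯ := mem_adjoin_simple_self ℂ A
  let A' : ℂ⟮A⟯ := ⟨A, hAm⟩
  have hB : IsAlgebraic ℂ⟮A⟯ B := by
    refine ⟨G.map (Polynomial.aeval A' : Polynomial ℂ →ₐ[ℂ] ℂ⟮A⟯).toRingHom, ?_, ?_⟩
    · intro h
      have h1 := congrArg (fun p => p.coeff D) h
      simp only [Polynomial.coeff_map, Polynomial.coeff_zero, hγ] at h1
      have h2 : (Polynomial.aeval A' : Polynomial ℂ →ₐ[ℂ] ℂ⟮A⟯) (Polynomial.C γ) = 0 := h1
      rw [Polynomial.aeval_C, map_eq_zero] at h2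
      exact hγ0 h2
    · rw [Polynomial.aeval_def, Polynomial.eval₂_map]
      have h1 : (algebraMap ℂ⟮A⟯ E).comp
          (Polynomial.aeval A' : Polynomial ℂ →ₐ[ℂ] ℂ⟮A⟯).toRingHom =
          (Polynomial.aeval A : Polynomial ℂ →ₐ[ℂ] E).toRingHom := by
        ext x
        · simp [← IsScalarTower.algebraMap_apply]
        · simp [A']
      rw [h1]
      exact h0
  have hle : (⊤ : IntermediateField ℂ E) ≤
      (algebraicClosure ℂ⟮A⟯ E).restrictScalars ℂ := by
    rw [← hgen, IntermediateField.adjoin_le_iff]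
    rintro y (rfl | hy)
    · exact mem_algebraicClosure_iff.2 (isAlgebraic_algebraMap (⟨y, mem_adjoin_simple_self ℂ y⟩ : ℂ⟮y⟯))
    · rw [Set.mem_singleton_iff] at hy
      rw [hy]
      exact mem_algebraicClosure_iff.2 hB
  have halg : Algebra.IsAlgebraic ℂ⟮A⟯ E := ⟨fun y =>
    mem_algebraicClosure_iff.1 (hle (IntermediateField.mem_top (x := y)))⟩
  have h2 := Pool.Agent.W602.GT.alg_adjoin halg
  have h3 := Algebra.IsAlgebraic.trdeg_le_cardinalMk ℂ ({A} : Set E)
  refine h3.trans ?_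
  simp

end trd

/-- **The analytic step.** -/
theorem t_alg : S_alg := by
  classical
  intro a b ha hb hane G D hG hD hs hrel
  by_contra hcon
  push Not at hcon
  obtain ⟨hna, hnl⟩ := hcon
  let K := FractionRing (MvPolynomial (Fin 3) ℂ)
  let x : Fin 3 → K := fun i => algebraMap (MvPolynomial (Fin 3) ℂ) K (MvPolynomial.X i)
  have hx : ∀ H : MvPolynomial (Fin 3) ℂ, val x H = 0 → H = 0 := by
    intro H hH
    have h1 : val x H = algebraMap (MvPolynomial (Fin 3) ℂ) K H := by
      change MvPolynomial.aeval (fun i => algebraMap (MvPolynomial (Fin 3) ℂ) K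
        (MvPolynomial.X i)) H = _
      have h2 := MvPolynomial.aeval_algebraMap_apply K (MvPolynomial.X : Fin 3 →
        MvPolynomial (Fin 3) ℂ) H
      rw [MvPolynomial.aeval_X_left_apply] at h2
      exact h2
    rw [h1] at hH
    exact (IsFractionRing.injective (MvPolynomial (Fin 3) ℂ) K) (by rw [hH, map_zero])
  let Q : Unit → MvPolynomial (Fin 3) ℂ := fun _ => MvPolynomial.X 0 * MvPolynomial.X 1
  have hQhom : (MvPolynomial.X 0 * MvPolynomial.X 1 : MvPolynomial (Fin 3) ℂ).IsHomogeneous 2 :=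
    (MvPolynomial.isHomogeneous_X ℂ 0).mul (MvPolynomial.isHomogeneous_X ℂ 1)
  have hQ : ∀ i, IsForm (Q i) := fun _ => ⟨2, hQhom⟩
  have hQdeg : (MvPolynomial.X 0 * MvPolynomial.X 1 : MvPolynomial (Fin 3) ℂ).totalDegree = 2 :=
    hQhom.totalDegree (mul_ne_zero (MvPolynomial.X_ne_zero _) (MvPolynomial.X_ne_zero _))
  obtain ⟨f, hf⟩ : ∃ f : ℂ → Fin 3 → ℂ, f = fun z => ![1, a z, b z] := ⟨_, rfl⟩
  have hf0 : ∀ z, f z 0 = 1 := fun z => by rw [hf]; rfl
  have hf1 : ∀ z, f z 1 = a z := fun z => by rw [hf]; rfl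
  have hf2 : ∀ z, f z 2 = b z := fun z => by rw [hf]; rfl
  obtain ⟨z0, hz0⟩ := hna (a 0)
  have hent : Entire x Q f := by
    refine ⟨fun i => ?_, fun t h => ?_, fun H _ hH t => ?_, fun t => ⟨(), ?_⟩, 0, z0, fun c h => ?_⟩
    · fin_cases i
      · simp only [Fin.zero_eta, hf0]
        exact differentiable_const _
      · simp only [Fin.mk_one, hf1]
        exact ha
      · simp only [Fin.reduceFinMk, hf2]
        exact hb
    · have := congrFun h 0
      rw [hf0] at this
      exact one_ne_zero this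
    · rw [hx H hH, map_zero]
    · simp only [Q, map_mul, MvPolynomial.eval_X, hf0, hf1, one_mul]
      exact hane t
    · have h1 := congrFun h 0
      have h2 := congrFun h 1
      rw [Pi.smul_apply, hf0, hf0, smul_eq_mul, mul_one] at h1
      rw [Pi.smul_apply, hf1, hf1, ← h1, one_smul] at h2
      exact hz0 h2.symm
  obtain ⟨E, i1, i2, z, t, hz, hzgen, ⟨i0, hoff⟩, htr, ht1, hiff, hlow⟩ :=
    Pool.Agent.H910.Lp.entire_sub' hQ hent
  simp only [Q, map_mul, MvPolynomial.aeval_X] at hoff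
  have hz0' : z 0 ≠ 0 := left_ne_zero_of_mul hoff
  have hz1' : z 1 ≠ 0 := right_ne_zero_of_mul hoff
  obtain ⟨A, hA⟩ : ∃ A, A = z 1 / z 0 := ⟨_, rfl⟩
  obtain ⟨B, hB⟩ : ∃ B, B = z 2 / z 0 := ⟨_, rfl⟩
  have hgen2 : IntermediateField.adjoin ℂ ({A, B} : Set E) = ⊤ := by
    have h1 := Pool.Agent.H910.Lp.gen_two hz0' hzgen
    rw [← hA, ← hB] at h1
    have h2 : Set.range (![A, B] : Fin 2 → E) = {A, B} := by
      ext y
      simp [Fin.exists_fin_two, eq_comm, or_comm]
    rwa [h2] at h1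
  have h0 : ev2 A B G = 0 := by
    have h1 : val z (hmg D G) = 0 := by
      rw [hiff _ ⟨D, hmg_hom D G⟩]
      intro s
      have h2 := hmg_val (L := ℂ) hG (f s) (by rw [hf0]; exact one_ne_zero)
      rw [hf0, hf1, hf2, div_one, div_one, one_pow, one_mul] at h2
      have h3 : MvPolynomial.aeval (f s) (hmg D G) = MvPolynomial.eval (f s) (hmg D G) := by
        exact congrFun (congrArg DFunLike.coe (MvPolynomial.coe_aeval_eq_eval (f s))) _
      rw [← h3, h2]
      have h4 := hrel s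
      rw [Polynomial.eval_map] at h4
      unfold ev2
      have h5 : (Polynomial.aeval (a s) : Polynomial ℂ →ₐ[ℂ] ℂ).toRingHom =
          Polynomial.evalRingHom (a s) := by
        ext x
        · simp
        · simp
      rw [h5]
      exact h4
    have h2 := hmg_val (L := E) hG z hz0'
    have h3 : val z (hmg D G) = MvPolynomial.aeval z (hmg D G) := rfl
    rw [h3, h2, ← hA, ← hB] at h1
    exact (mul_eq_zero.1 h1).resolve_left (pow_ne_zero _ hz0')
  have hAtr : Transcendental ℂ A := by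
    intro halg
    obtain ⟨c, hc⟩ : ∃ c : ℂ, algebraMap ℂ E c = A :=
      minpoly.mem_range_of_degree_eq_one ℂ A
        (IsAlgClosed.degree_eq_one_of_irreducible ℂ (minpoly.irreducible halg.isIntegral))
    have h1 : val z (MvPolynomial.X 1 - MvPolynomial.C c * MvPolynomial.X 0 :
        MvPolynomial (Fin 3) ℂ) = 0 := by
      change MvPolynomial.aeval z _ = 0
      simp only [map_sub, map_mul, MvPolynomial.aeval_X, MvPolynomial.aeval_C]
      rw [hc, hA]
      field_simp
      ring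
    rw [hiff _ ⟨1, ?_⟩] at h1
    · have h2 := h1 z0
      have h3 := h1 0
      simp only [map_sub, map_mul, MvPolynomial.eval_X, MvPolynomial.eval_C, hf0, hf1] at h2 h3
      exact hz0 (by linear_combination h2 - h3)
    · refine MvPolynomial.IsHomogeneous.sub (MvPolynomial.isHomogeneous_X ℂ 1) ?_
      simpa using (MvPolynomial.isHomogeneous_C (Fin 3) c).mul (MvPolynomial.isHomogeneous_X ℂ 0)
  have htr1 : t = 1 := by
    have h1 := trdeg_le_one hgen2 hG hD h0
    rw [htr] at h1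
    have h2 : t ≤ 1 := by exact_mod_cast h1
    omega
  subst htr1
  have hff : IsFF ℂ E := Pool.Agent.H910.Lp.isFF_of hzgen htr
  have hlow' := hlow rfl hff
  have hfin := meets_fin (Q := Q) ⟨0, hz0'⟩ ⟨(), by
    simp only [Q, map_mul, MvPolynomial.aeval_X]
    exact hoff⟩
  obtain ⟨α, β, hαβ⟩ := line_of hAtr hgen2 hG hD hs h0 hfin.toFinset (by
    rw [← Set.ncard_eq_toFinset_card _ hfin]
    exact hlow') (by
    intro P hP
    rw [Set.Finite.mem_toFinset]
    rintro ⟨⟩
    right
    simp only [Q, map_mul, MvPolynomial.aeval_X, hQdeg]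
    have h1 := pord_le P hz0'
    have h2 := pord_le P hz1'
    rw [hA, P.ord_div hz1' hz0'] at hP
    rw [P.ord_mul hz0' hz1']
    push_cast
    omega)
  obtain ⟨s, hs'⟩ := hnl α β
  apply hs'
  have h1 : val z (MvPolynomial.X 2 - MvPolynomial.C α * MvPolynomial.X 1 -
      MvPolynomial.C β * MvPolynomial.X 0 : MvPolynomial (Fin 3) ℂ) = 0 := by
    change MvPolynomial.aeval z _ = 0
    simp only [map_sub, map_mul, MvPolynomial.aeval_X, MvPolynomial.aeval_C]
    rw [hA, hB] at hαβ
    field_simp at hαβ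
    linear_combination hαβ
  rw [hiff _ ⟨1, ?_⟩] at h1
  · have h2 := h1 s
    simp only [map_sub, map_mul, MvPolynomial.eval_X, MvPolynomial.eval_C, hf0, hf1, hf2] at h2
    linear_combination h2
  · refine MvPolynomial.IsHomogeneous.sub (MvPolynomial.IsHomogeneous.sub
      (MvPolynomial.isHomogeneous_X ℂ 2) ?_) ?_
    · simpa using (MvPolynomial.isHomogeneous_C (Fin 3) α).mul (MvPolynomial.isHomogeneous_X ℂ 1)
    · simpa using (MvPolynomial.isHomogeneous_C (Fin 3) β).mul (MvPolynomial.isHomogeneous_X ℂ 0)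

end Pool.Agent.H910.Kh
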