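import Pool.Agent.H910.Kh.Stm

/-!
# Step 4: `S_alg → S_fin` (written by helper685 for helper910)
-/

set_option autoImplicit false

open Polynomial

namespace Pool.Agent.H910.Kh

namespace R4

/-! ### generalities -/

theorem cf_map (m : ℕ) {R S : Type} [CommRing R] [CommRing S] (φ : R →+* S) (p : R[X])
    (l : Fin (m + 1)) : cf m (p.map φ) l = φ (cf m p l) := by
  unfold cf
  rw [coeff_map]

theorem hom_aeval {σ R S : Type} [CommRing R] [CommRing S] [Algebra ℂ R] [Algebra ℂ S]
    (φ : R →+* S) (hφ : φ.comp (algebraMap ℂ R) = algebraMap ℂ S) (w : σ → R)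
    (F : MvPolynomial σ ℂ) :
    φ (MvPolynomial.aeval w F) = MvPolynomial.aeval (fun i => φ (w i)) F := by
  rw [MvPolynomial.aeval_def, MvPolynomial.eval₂_comp_left φ, hφ, MvPolynomial.aeval_def]
  rfl

theorem aeval_C {σ : Type} (w : σ → ℂ) (F : MvPolynomial σ ℂ) :
    MvPolynomial.aeval w F = MvPolynomial.eval w F := rfl

theorem eval_aeval {σ : Type} (w : σ → ℂ[X]) (F : MvPolynomial σ ℂ) (x : ℂ) :
    (MvPolynomial.aeval w F).eval x = MvPolynomial.eval (fun i => (w i).eval x) F := by
  have h := hom_aeval (evalRingHom x) (by ext y; simp) w F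
  exact h

theorem sum_eq {σ : Type} [Fintype σ] {F : MvPolynomial σ ℂ} {d : ℕ} (hF : F.IsHomogeneous d)
    {s : σ →₀ ℕ} (hs : s ∈ F.support) : ∑ i, s i = d := by
  have h := hF (MvPolynomial.mem_support_iff.mp hs)
  rw [Finsupp.weight_apply, Finsupp.sum_fintype _ _ (by simp)] at h
  simpa using h

theorem eval_smul {σ : Type} [Fintype σ] {F : MvPolynomial σ ℂ} {d : ℕ} (hF : F.IsHomogeneous d)
    (t : ℂ) (v : σ → ℂ) :
    MvPolynomial.eval (fun i => t * v i) F = t ^ d * MvPolynomial.eval v F := by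
  rw [MvPolynomial.eval_eq', MvPolynomial.eval_eq', Finset.mul_sum]
  refine Finset.sum_congr rfl fun s hs => ?_
  have h1 : ∏ i, (t * v i) ^ s i = t ^ d * ∏ i, v i ^ s i := by
    simp_rw [mul_pow]
    rw [Finset.prod_mul_distrib, Finset.prod_pow_eq_pow_sum, sum_eq hF hs]
  rw [h1]
  ring

/-! ### the top coefficient -/

theorem prod_top {ι : Type} [DecidableEq ι] (S : Finset ι) (w : ι → ℂ[X]) (n : ℕ)
    (hw : ∀ i, (w i).natDegree ≤ n) (s : ι → ℕ) :
    (∏ i ∈ S, w i ^ s i).natDegree ≤ (∑ i ∈ S, s i) * n ∧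
      (∏ i ∈ S, w i ^ s i).coeff ((∑ i ∈ S, s i) * n) = ∏ i ∈ S, (w i).coeff n ^ s i := by
  induction S using Finset.induction_on with
  | empty => simp
  | insert a S ha ih =>
    rw [Finset.prod_insert ha, Finset.sum_insert ha, Finset.prod_insert ha, add_mul]
    have h1 : (w a ^ s a).natDegree ≤ s a * n := natDegree_pow_le_of_le _ (hw a)
    constructor
    · exact natDegree_mul_le_of_le h1 ih.1
    · rw [coeff_mul_add_eq_of_natDegree_le h1 ih.1, coeff_pow_of_natDegree_le (hw a), ih.2]

theorem top {σ : Type} [Fintype σ] [DecidableEq σ] {F : MvPolynomial σ ℂ} {d : ℕ}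
    (hF : F.IsHomogeneous d) (w : σ → ℂ[X]) (n : ℕ) (hw : ∀ i, (w i).natDegree ≤ n) :
    (MvPolynomial.aeval w F).coeff (d * n) = MvPolynomial.eval (fun i => (w i).coeff n) F := by
  rw [MvPolynomial.aeval_def, MvPolynomial.eval₂_eq', MvPolynomial.eval_eq', finsetSum_coeff]
  refine Finset.sum_congr rfl fun s hs => ?_
  have h := (prod_top Finset.univ w n hw s).2
  rw [sum_eq hF hs] at h
  have h2 : algebraMap ℂ ℂ[X] (F.coeff s) = C (F.coeff s) := rfl
  rw [h2, coeff_C_mul, h]

/-! ### total degrees -/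

/-- the total degree of `g` is at most `D` -/
def TD (D : ℕ) (g : ℂ[X][X]) : Prop := ∀ i j, D < i + j → (g.coeff j).coeff i = 0

theorem TD.mono {D E : ℕ} (h : D ≤ E) {g : ℂ[X][X]} (hg : TD D g) : TD E g :=
  fun i j hij => hg i j (lt_of_le_of_lt h hij)

theorem TD.zero (D : ℕ) : TD D 0 := fun i j _ => by simp

theorem TD.add {D : ℕ} {g h : ℂ[X][X]} (hg : TD D g) (hh : TD D h) : TD D (g + h) := by
  intro i j hij
  rw [coeff_add, coeff_add, hg i j hij, hh i j hij, add_zero]

theorem TD.sum {ι : Type} {D : ℕ} (S : Finset ι) (f : ι → ℂ[X][X]) (h : ∀ i ∈ S, TD D (f i)) :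
    TD D (∑ i ∈ S, f i) := by
  intro i j hij
  rw [finsetSum_coeff, finsetSum_coeff]
  exact Finset.sum_eq_zero fun x hx => h x hx i j hij

theorem TD.mul {D E : ℕ} {g h : ℂ[X][X]} (hg : TD D g) (hh : TD E h) : TD (D + E) (g * h) := by
  intro i j hij
  rw [coeff_mul, finsetSum_coeff]
  refine Finset.sum_eq_zero fun x hx => ?_
  rw [coeff_mul]
  refine Finset.sum_eq_zero fun y hy => ?_
  rw [Finset.HasAntidiagonal.mem_antidiagonal] at hx hy
  by_cases h1 : D < y.1 + x.1
  · rw [hg _ _ h1, zero_mul]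
  · rw [hh y.2 x.2 (by omega), mul_zero]

theorem TD.CC (x : ℂ) : TD 0 (C (C x)) := by
  intro i j hij
  rw [coeff_C]
  split_ifs with h1
  · rw [coeff_C, if_neg (by omega)]
  · rw [coeff_zero]

theorem TD.one : TD 0 1 := by
  have h := TD.CC 1
  rwa [map_one, map_one] at h

theorem TD.pow {D : ℕ} {g : ℂ[X][X]} (hg : TD D g) (n : ℕ) : TD (n * D) (g ^ n) := by
  induction n with
  | zero => rw [zero_mul, pow_zero]; exact TD.one
  | succ n ih =>
    rw [pow_succ, Nat.succ_mul]
    exact ih.mul hg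

theorem TD.prod {ι : Type} [DecidableEq ι] (S : Finset ι) (f : ι → ℂ[X][X]) (D : ι → ℕ)
    (h : ∀ i ∈ S, TD (D i) (f i)) : TD (∑ i ∈ S, D i) (∏ i ∈ S, f i) := by
  induction S using Finset.induction_on with
  | empty => rw [Finset.sum_empty, Finset.prod_empty]; exact TD.one
  | insert a S ha ih =>
    rw [Finset.sum_insert ha, Finset.prod_insert ha]
    exact (h a (Finset.mem_insert_self a S)).mul
      (ih fun i hi => h i (Finset.mem_insert_of_mem hi))

theorem TD.le {D : ℕ} {g : ℂ[X][X]} (hg : TD D g) (j : ℕ) (hj : g.coeff j ≠ 0) :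
    (g.coeff j).natDegree + j ≤ D := by
  by_contra hcon
  have h := hg _ j (not_le.mp hcon)
  exact hj (leadingCoeff_eq_zero.mp h)

theorem TD3_prod {ι : Type} [DecidableEq ι] (S : Finset ι) (f : ι → ℂ[X][X][X])
    (h : ∀ i ∈ S, ∀ k, TD 1 ((f i).coeff k)) : ∀ k, TD S.card ((∏ i ∈ S, f i).coeff k) := by
  induction S using Finset.induction_on with
  | empty =>
    intro k
    rw [Finset.prod_empty, coeff_one]
    split_ifs
    · exact TD.one
    · exact TD.zero _
  | insert a S ha ih =>
    intro k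
    rw [Finset.prod_insert ha, Finset.card_insert_of_notMem ha, coeff_mul, add_comm]
    refine TD.sum _ _ fun x _ => ?_
    exact (h a (Finset.mem_insert_self a S) _).mul
      (ih (fun i hi => h i (Finset.mem_insert_of_mem hi)) _)

/-! ### the polynomial of two variables -/

variable {m : ℕ}

/-- `∏ (Y - (A c_j + T))` -/
noncomputable def W (c : Fin m → ℂ) : ℂ[X][X][X] := ∏ j, (X - C (C (X * C (c j)) + X))

/-- the polynomial `F` at `∏ (Y - (A c_j + T))` -/
noncomputable def G (F : MvPolynomial (Fin (m + 1)) ℂ) (c : Fin m → ℂ) : ℂ[X][X] :=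
  MvPolynomial.aeval (cf m (W c)) F

theorem G_eval (F : MvPolynomial (Fin (m + 1)) ℂ) (c : Fin m → ℂ) (A T : ℂ) :
    ((G F c).map (evalRingHom A)).eval T =
      MvPolynomial.eval (cf m (∏ j, (X - C (A * c j + T)))) F := by
  have h := hom_aeval (eval₂RingHom (evalRingHom A) T) (by ext x; simp) (cf m (W c)) F
  rw [eval_map]
  refine Eq.trans h ?_
  rw [aeval_C]
  have h2 : (fun i => (eval₂RingHom (evalRingHom A) T) (cf m (W c) i)) =
      cf m (∏ j, (X - C (A * c j + T))) := by
    funext l
    rw [← cf_map]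
    unfold W
    rw [Polynomial.map_prod]
    have h3 : ∀ j, ((X - C (C (X * C (c j)) + X) : ℂ[X][X][X])).map
        (eval₂RingHom (evalRingHom A) T) = X - C (A * c j + T) := by
      intro j
      simp
      ring
    rw [Finset.prod_congr rfl fun j _ => h3 j]
  rw [h2]

theorem W_TD (c : Fin m → ℂ) (k : ℕ) : TD m ((W c).coeff k) := by
  have h := TD3_prod (Finset.univ : Finset (Fin m))
    (fun j => (X - C (C (X * C (c j)) + X) : ℂ[X][X][X])) ?_ k
  · rw [Finset.card_univ, Fintype.card_fin] at h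
    exact h
  · intro j _ k i l hil
    rw [coeff_sub, coeff_X, coeff_C, coeff_sub, coeff_sub]
    have h1 : (((if 1 = k then (1 : ℂ[X][X]) else 0).coeff l).coeff i : ℂ) = 0 := by
      split_ifs
      · exact TD.one i l (by omega)
      · simp
    have h2 : (((if k = 0 then (C (X * C (c j)) + X : ℂ[X][X]) else 0).coeff l).coeff i : ℂ) =
        0 := by
      split_ifs
      · rw [coeff_add, coeff_C, coeff_X, coeff_add]
        have h3 : ((if l = 0 then (X * C (c j) : ℂ[X]) else 0).coeff i : ℂ) = 0 := by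
          split_ifs with h4
          · rw [coeff_mul_C, coeff_X, if_neg (by omega), zero_mul]
          · simp
        have h4 : ((if 1 = l then (1 : ℂ[X]) else 0).coeff i : ℂ) = 0 := by
          split_ifs with h5
          · rw [coeff_one, if_neg (by omega)]
          · simp
        rw [h3, h4, add_zero]
      · simp
    rw [h1, h2, sub_zero]

theorem G_TD {F : MvPolynomial (Fin (m + 1)) ℂ} {d : ℕ} (hF : F.IsHomogeneous d)
    (c : Fin m → ℂ) : TD (d * m) (G F c) := by
  unfold G
  rw [MvPolynomial.aeval_def, MvPolynomial.eval₂_eq']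
  refine TD.sum _ _ fun s hs => ?_
  have h1 : TD 0 (algebraMap ℂ ℂ[X][X] (F.coeff s)) := TD.CC _
  have h2 := h1.mul (TD.prod Finset.univ (fun i => cf m (W c) i ^ s i) (fun i => s i * m)
    (fun i _ => TD.pow (W_TD c _) _))
  rw [← Finset.sum_mul, sum_eq hF hs, zero_add] at h2
  exact h2

/-! ### elementary symmetric functions -/

/-- the elementary symmetric functions -/
def es {R : Type} [CommRing R] (f : Fin m → R) (i : ℕ) : R :=
  ∑ t ∈ (Finset.univ : Finset (Fin m)).powersetCard i, ∏ j ∈ t, f j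

theorem es_zero {R : Type} [CommRing R] (f : Fin m → R) : es f 0 = 1 := by
  unfold es
  rw [Finset.powersetCard_zero, Finset.sum_singleton, Finset.prod_empty]

theorem es_map {R S : Type} [CommRing R] [CommRing S] (φ : R →+* S) (f : Fin m → R) (i : ℕ) :
    es (fun j => φ (f j)) i = φ (es f i) := by
  unfold es
  rw [map_sum]
  exact Finset.sum_congr rfl fun t _ => (map_prod φ f t).symm

theorem expand {R : Type} [CommRing R] (y A : R) (f : Fin m → R) :
    ∏ j, (y - A * f j) = ∑ i ∈ Finset.range (m + 1), (-A) ^ i * es f i * y ^ (m - i) := by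
  have h1 : ∏ j, (y - A * f j) = ∏ j, (-A * f j + y) := Finset.prod_congr rfl fun j _ => by ring
  rw [h1, Finset.prod_add, Finset.sum_powerset, Finset.card_univ, Fintype.card_fin]
  refine Finset.sum_congr rfl fun i _ => ?_
  unfold es
  rw [Finset.mul_sum, Finset.sum_mul]
  refine Finset.sum_congr rfl fun t ht => ?_
  rw [Finset.mem_powersetCard] at ht
  rw [Finset.prod_mul_distrib, Finset.prod_const, Finset.prod_const, ht.2,
    Finset.card_sdiff_of_subset ht.1, Finset.card_univ, Fintype.card_fin, ht.2]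

/-! ### the polynomial along a line -/

/-- the polynomial `F` at `∏ (X - β - A c_j)`, as a polynomial in `A` -/
noncomputable def Phi (F : MvPolynomial (Fin (m + 1)) ℂ) (c : Fin m → ℂ) (β : ℂ) : ℂ[X] :=
  MvPolynomial.aeval (cf m (∏ j, (X - C (C β + X * C (c j)) : ℂ[X][X]))) F

theorem Phi_eval (F : MvPolynomial (Fin (m + 1)) ℂ) (c : Fin m → ℂ) (β A : ℂ) :
    (Phi F c β).eval A = MvPolynomial.eval (cf m (∏ j, (X - C (A * c j + β)))) F := by
  unfold Phi
  rw [eval_aeval]
  have h2 : (fun i => (cf m (∏ j, (X - C (C β + X * C (c j)) : ℂ[X][X])) i).eval A) =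
      cf m (∏ j, (X - C (A * c j + β))) := by
    funext l
    have h := cf_map m (evalRingHom A) (∏ j, (X - C (C β + X * C (c j)) : ℂ[X][X])) l
    refine h.symm.trans ?_
    rw [Polynomial.map_prod]
    have h3 : ∀ j, ((X - C (C β + X * C (c j)) : ℂ[X][X])).map (evalRingHom A) =
        X - C (A * c j + β) := by
      intro j
      simp
      ring
    rw [Finset.prod_congr rfl fun j _ => h3 j]
  rw [h2]

theorem cfE (c : Fin m → ℂ) (β : ℂ) (l : Fin (m + 1)) :
    cf m (∏ j, (X - C (C β + X * C (c j)) : ℂ[X][X])) l =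
      ∑ i ∈ Finset.range (m + 1), C ((-1) ^ i * es c i * cf m ((X - C β) ^ (m - i)) l) * X ^ i := by
  have h1 : ∏ j, (X - C (C β + X * C (c j)) : ℂ[X][X]) =
      ∏ j, ((X - C (C β)) - C X * C (C (c j))) := by
    refine Finset.prod_congr rfl fun j _ => ?_
    rw [map_add, map_mul]
    ring
  have h2 : es (fun j => (C (C (c j)) : ℂ[X][X])) = fun i => C (C (es c i)) := by
    funext i
    exact es_map ((C : ℂ[X] →+* ℂ[X][X]).comp (C : ℂ →+* ℂ[X])) c i
  rw [h1, expand, h2]
  unfold cf
  rw [finsetSum_coeff]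
  refine Finset.sum_congr rfl fun i _ => ?_
  have h3 : ((X - C (C β) : ℂ[X][X])) ^ (m - i) = ((X - C β) ^ (m - i)).map C := by
    rw [Polynomial.map_pow, Polynomial.map_sub, map_X, map_C]
  have h4 : (-(C X : ℂ[X][X])) ^ i * C (C (es c i)) = C (C ((-1) ^ i * es c i) * X ^ i) := by
    have h5 : (C (C ((-1 : ℂ) ^ i * es c i) * X ^ i) : ℂ[X][X]) =
        (-1) ^ i * C (C (es c i)) * (C X) ^ i := by
      simp only [map_mul, map_pow, map_neg, map_one]
    have h6 : (-(C X : ℂ[X][X])) = (-1) * (C X) := by ring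
    rw [h5, h6, mul_pow]
    ring
  rw [h3, h4, coeff_C_mul, coeff_map, map_mul (C : ℂ →+* ℂ[X]) ((-1) ^ i * es c i)]
  ring

theorem taylor {σ : Type} [Fintype σ] [DecidableEq σ] (u : σ → ℂ) (v : σ → ℂ[X]) (k : ℕ)
    (hk : 1 ≤ k) (F : MvPolynomial σ ℂ) : ∃ r : ℂ[X],
      MvPolynomial.aeval (fun l => C (u l) + X ^ k * v l) F =
        C (MvPolynomial.eval u F) +
          X ^ k * (∑ i, C (MvPolynomial.eval u (MvPolynomial.pderiv i F)) * v i) +
          X ^ (k + 1) * r := by
  induction F using MvPolynomial.induction_on with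
  | C a =>
    refine ⟨0, ?_⟩
    simp
  | add p q hp hq =>
    obtain ⟨r, hr⟩ := hp
    obtain ⟨s, hs⟩ := hq
    refine ⟨r + s, ?_⟩
    rw [map_add, hr, hs]
    simp only [map_add, add_mul, Finset.sum_add_distrib]
    ring
  | mul_X p n hp =>
    obtain ⟨r, hr⟩ := hp
    have h1 : ∑ i, C (MvPolynomial.eval u (MvPolynomial.pderiv i (p * MvPolynomial.X n))) * v i =
        (∑ i, C (MvPolynomial.eval u (MvPolynomial.pderiv i p)) * v i) * C (u n) +
          C (MvPolynomial.eval u p) * v n := by
      rw [Finset.sum_mul]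
      have h2 : C (MvPolynomial.eval u p) * v n =
          ∑ i, C (MvPolynomial.eval u p) * (if i = n then v i else 0) := by
        rw [← Finset.mul_sum, Finset.sum_ite_eq' Finset.univ n, if_pos (Finset.mem_univ n)]
      rw [h2, ← Finset.sum_add_distrib]
      refine Finset.sum_congr rfl fun i _ => ?_
      rw [MvPolynomial.pderiv_mul, MvPolynomial.pderiv_X, map_add, map_mul, map_mul,
        MvPolynomial.eval_X, Pi.single_apply]
      by_cases hin : n = i
      · rw [if_pos hin, if_pos hin.symm, map_one, mul_one, map_add, map_mul]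
        ring
      · rw [if_neg hin, if_neg (fun h => hin h.symm), map_zero, mul_zero, mul_zero, add_zero,
          add_zero, map_mul]
        ring
    obtain ⟨e, rfl⟩ := Nat.exists_eq_add_of_le hk
    refine ⟨r * (C (u n) + X ^ (1 + e) * v n) +
      X ^ e * ((∑ i, C (MvPolynomial.eval u (MvPolynomial.pderiv i p)) * v i) * v n), ?_⟩
    rw [map_mul, hr, MvPolynomial.aeval_X, h1, map_mul, MvPolynomial.eval_X, map_mul]
    ring

/-- the first coefficient along a line -/
theorem Phi_coeff (F : MvPolynomial (Fin (m + 1)) ℂ) (c : Fin m → ℂ) (β : ℂ) (k : ℕ)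
    (hk : 1 ≤ k) (hkm : k ≤ m) (h0 : ∀ i, 1 ≤ i → i < k → es c i = 0) :
    (Phi F c β).coeff k = (-1) ^ k * es c k *
      ∑ i, MvPolynomial.eval (cf m ((X - C β) ^ m)) (MvPolynomial.pderiv i F) *
        cf m ((X - C β) ^ (m - k)) i := by
  set w : Fin (m + 1) → ℂ[X] := cf m (∏ j, (X - C (C β + X * C (c j)) : ℂ[X][X])) with hw
  have hcoef : ∀ l n, n ≤ m → (w l).coeff n =
      (-1) ^ n * es c n * cf m ((X - C β) ^ (m - n)) l := by
    intro l n hn
    rw [hw, cfE, finsetSum_coeff, Finset.sum_eq_single n]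
    · rw [coeff_C_mul_X_pow, if_pos rfl]
    · intro i _ hi
      rw [coeff_C_mul_X_pow, if_neg (fun h => hi h.symm)]
    · intro h
      exact absurd (Finset.mem_range.mpr (by omega)) h
  have hdiv : ∀ l, ∃ v : ℂ[X], w l = C (cf m ((X - C β) ^ m) l) + X ^ k * v := by
    intro l
    have h1 : X ^ k ∣ w l - C (cf m ((X - C β) ^ m) l) := by
      rw [X_pow_dvd_iff]
      intro n hn
      rw [coeff_sub, hcoef l n (by omega), coeff_C]
      split_ifs with h2
      · subst h2
        rw [pow_zero, es_zero, one_mul, one_mul, Nat.sub_zero, sub_self]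
      · rw [h0 n (by omega) hn]
        ring
    obtain ⟨v, hv⟩ := h1
    exact ⟨v, by rw [← hv]; ring⟩
  choose v hv using hdiv
  obtain ⟨r, hr⟩ := taylor (cf m ((X - C β) ^ m)) v k hk F
  have hPhi : Phi F c β = MvPolynomial.aeval (fun l => C (cf m ((X - C β) ^ m) l) + X ^ k * v l) F := by
    unfold Phi
    rw [← hw]
    congr 2
    funext l
    exact hv l
  have hv0 : ∀ l, (v l).coeff 0 = (-1) ^ k * es c k * cf m ((X - C β) ^ (m - k)) l := by
    intro l
    rw [← hcoef l k hkm, hv l, coeff_add, coeff_C, if_neg (by omega), zero_add,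
      coeff_X_pow_mul', if_pos le_rfl, Nat.sub_self]
  rw [hPhi, hr, coeff_add, coeff_add, coeff_C, if_neg (by omega), zero_add, coeff_X_pow_mul',
    if_pos le_rfl, Nat.sub_self, coeff_X_pow_mul', if_neg (by omega), add_zero, finsetSum_coeff,
    Finset.mul_sum]
  refine Finset.sum_congr rfl fun i _ => ?_
  rw [coeff_C_mul, hv0]
  ring

/-! ### the polynomial `G` at `A = 0` -/

theorem G_eval_zero (F : MvPolynomial (Fin (m + 1)) ℂ) (c : Fin m → ℂ) (T : ℂ) :
    ((G F c).map (evalRingHom 0)).eval T = MvPolynomial.eval (cf m ((X - C T) ^ m)) F := by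
  rw [G_eval]
  have h : ∏ j, (X - C (0 * c j + T)) = (X - C T) ^ m := by
    rw [Finset.prod_congr rfl fun j _ => by rw [zero_mul, zero_add], Finset.prod_const,
      Finset.card_univ, Fintype.card_fin]
  rw [h]

theorem w0_eq (l : Fin (m + 1)) : cf m ((X + C (-X) : ℂ[X][X]) ^ m) l =
    (-X) ^ (l : ℕ) * (m.choose (m - l) : ℂ[X]) := by
  unfold cf
  rw [coeff_X_add_C_pow]
  have h : m - (m - (l : ℕ)) = l := by
    have := l.2
    omega
  rw [h]

theorem w0_natDegree (l : Fin (m + 1)) :
    (cf m ((X + C (-X) : ℂ[X][X]) ^ m) l).natDegree ≤ l := by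
  rw [w0_eq]
  refine (natDegree_mul_le_of_le (n := 0) (natDegree_pow_le_of_le (m := 1) (l : ℕ) ?_)
    (natDegree_natCast _).le).trans (by omega)
  rw [natDegree_neg, natDegree_X]

theorem w0_top (l : Fin (m + 1)) : (cf m ((X + C (-X) : ℂ[X][X]) ^ m) l).coeff m =
    (-1) ^ m * (Pi.single (Fin.last m) 1 : Fin (m + 1) → ℂ) l := by
  by_cases hl : l = Fin.last m
  · subst hl
    rw [w0_eq, Pi.single_eq_same, Fin.val_last, Nat.sub_self, Nat.choose_zero_right, Nat.cast_one,
      mul_one, mul_one, neg_pow]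
    have h : ((-1 : ℂ[X]) ^ m) = C ((-1) ^ m) := by
      rw [map_pow, map_neg, map_one]
    rw [h, coeff_C_mul_X_pow, if_pos rfl]
  · rw [Pi.single_eq_of_ne hl, mul_zero]
    refine coeff_eq_zero_of_natDegree_lt (lt_of_le_of_lt (w0_natDegree l) ?_)
    have h1 := l.2
    have h2 : (l : ℕ) ≠ m := fun h => hl (Fin.ext h)
    omega

theorem G0_eq (F : MvPolynomial (Fin (m + 1)) ℂ) (c : Fin m → ℂ) :
    (G F c).map (evalRingHom 0) = MvPolynomial.aeval (cf m ((X + C (-X) : ℂ[X][X]) ^ m)) F := by
  refine Polynomial.funext fun T => ?_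
  rw [G_eval_zero, eval_aeval]
  have h : cf m ((X - C T) ^ m) = fun i => (cf m ((X + C (-X) : ℂ[X][X]) ^ m) i).eval T := by
    funext l
    have h1 := cf_map m (evalRingHom T) ((X + C (-X) : ℂ[X][X]) ^ m) l
    refine Eq.trans ?_ h1
    have h2 : ((X + C (-X) : ℂ[X][X]) ^ m).map (evalRingHom T) = (X - C T) ^ m := by
      rw [Polynomial.map_pow, Polynomial.map_add, map_X, map_C]
      congr 1
      simp
      ring
    rw [h2]
  rw [h]

theorem G0_top {F : MvPolynomial (Fin (m + 1)) ℂ} {d : ℕ} (hF : F.IsHomogeneous d)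
    (hg : Good F) (c : Fin m → ℂ) : ((G F c).map (evalRingHom 0)).coeff (d * m) ≠ 0 := by
  rw [G0_eq, top hF _ m (fun l => (w0_natDegree l).trans (by have := l.2; omega))]
  have h : (fun i => (cf m ((X + C (-X) : ℂ[X][X]) ^ m) i).coeff m) =
      fun i => (-1) ^ m * (Pi.single (Fin.last m) 1 : Fin (m + 1) → ℂ) i := funext w0_top
  rw [h, eval_smul hF]
  exact mul_ne_zero (pow_ne_zero _ (pow_ne_zero _ (by norm_num))) hg.1

theorem G_top {F : MvPolynomial (Fin (m + 1)) ℂ} {d : ℕ} (hF : F.IsHomogeneous d)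
    (hg : Good F) (c : Fin m → ℂ) : (G F c).coeff (d * m) ≠ 0 := by
  intro h
  refine G0_top hF hg c ?_
  rw [coeff_map, h, map_zero]

theorem G_sep {F : MvPolynomial (Fin (m + 1)) ℂ} (hm : 1 ≤ m) (hg : Good F) (c : Fin m → ℂ) :
    ((G F c).map (evalRingHom (0 : ℂ))).Separable := by
  rw [separable_def, isCoprime_iff_aeval_ne_zero_of_isAlgClosed ℂ ℂ]
  intro T
  by_cases hT : ((G F c).map (evalRingHom (0 : ℂ))).eval T = 0
  · right
    change (derivative ((G F c).map (evalRingHom (0 : ℂ)))).eval T ≠ 0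
    rw [← taylor_coeff_one]
    have h1 : Polynomial.taylor T ((G F c).map (evalRingHom (0 : ℂ))) = Phi F (fun _ => 1) T := by
      refine Polynomial.funext fun A => ?_
      rw [taylor_eval, G_eval_zero, Phi_eval]
      have h : ∏ _j : Fin m, (X - C (A * 1 + T)) = (X - C (A + T)) ^ m := by
        rw [Finset.prod_const, Finset.card_univ, Fintype.card_fin, mul_one]
      rw [h, add_comm A T]
    rw [h1, Phi_coeff F _ T 1 le_rfl hm (fun i h1 h2 => by omega)]
    rw [G_eval_zero] at hT
    refine mul_ne_zero (mul_ne_zero (by norm_num) ?_) (hg.2 T hT 1 le_rfl hm)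
    unfold es
    rw [Finset.sum_congr rfl (fun t _ => Finset.prod_const_one), Finset.sum_const,
      Finset.card_powersetCard, Finset.card_univ, Fintype.card_fin, Nat.choose_one_right,
      nsmul_eq_mul, mul_one]
    exact_mod_cast (by omega : m ≠ 0)
  · left
    exact hT

theorem const_of_finite {f : ℂ → ℂ} (hf : Continuous f) (h : (Set.range f).Finite) (z w : ℂ) :
    f z = f w := by
  by_contra hne
  have h1 : IsPreconnected (Set.range f) := isPreconnected_range hf
  exact h1.infinite_of_nontrivial ⟨f z, ⟨z, rfl⟩, f w, ⟨w, rfl⟩, hne⟩ h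

end R4

open R4 in
theorem t_fin (halg : S_alg) : S_fin := by
  intro m d hm F hF hg a b c ha hb ha0 hc h
  have hz : ∀ z, ((G F c).map (evalRingHom (a z))).eval (b z) = 0 := fun z => by
    rw [G_eval]
    exact h z
  rcases halg a b ha hb ha0 (G F c) (d * m) (fun j hj => (G_TD hF c).le j hj) (G_top hF hg c)
    (G_sep (by omega) hg c) hz with ⟨a₀, haa⟩ | ⟨α, β, hab⟩
  · have hq : (G F c).map (evalRingHom a₀) ≠ 0 := by
      intro h0
      have h1 : ((G F c).map (evalRingHom a₀)).coeff (d * m) = 0 := by rw [h0, coeff_zero]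
      have h2 := (G_TD hF c).le _ (G_top hF hg c)
      have h3 : ((G F c).coeff (d * m)).natDegree = 0 := by omega
      have h4 := eq_C_of_natDegree_eq_zero h3
      rw [coeff_map, h4, coe_evalRingHom, eval_C] at h1
      rw [h1, map_zero] at h4
      exact G_top hF hg c h4
    have hb' : (Set.range b).Finite := by
      refine ((G F c).map (evalRingHom a₀)).roots.toFinset.finite_toSet.subset ?_
      rintro _ ⟨z, rfl⟩
      rw [Finset.mem_coe, Multiset.mem_toFinset, mem_roots hq, IsRoot.def, ← haa z]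
      exact hz z
    intro z w
    exact ⟨by rw [haa, haa], const_of_finite hb.continuous hb' z w⟩
  · by_cases hfin : (Set.range a).Finite
    · intro z w
      have h1 := const_of_finite ha.continuous hfin z w
      exact ⟨h1, by rw [hab, hab, h1]⟩
    · exfalso
      set c' : Fin m → ℂ := fun j => c j + α with hc'
      have hroot : ∀ z, (Phi F c' β).eval (a z) = 0 := by
        intro z
        rw [Phi_eval, ← h z]
        have h1 : ∏ j, (X - C (a z * c' j + β)) = ∏ j, (X - C (a z * c j + b z)) := by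
          refine Finset.prod_congr rfl fun j _ => ?_
          rw [hab z, hc']
          congr 2
          ring
        rw [h1]
      have hPhi : Phi F c' β = 0 := by
        refine eq_zero_of_infinite_isRoot _ (Set.Infinite.mono ?_ hfin)
        rintro _ ⟨z, rfl⟩
        exact hroot z
      have hu : MvPolynomial.eval (cf m ((X - C β) ^ m)) F = 0 := by
        have h1 := Phi_eval F c' β 0
        rw [hPhi, eval_zero] at h1
        have h2 : ∏ j, (X - C (0 * c' j + β)) = (X - C β) ^ m := by
          rw [Finset.prod_congr rfl fun j _ => by rw [zero_mul, zero_add], Finset.prod_const,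
            Finset.card_univ, Fintype.card_fin]
        rw [h2] at h1
        exact h1.symm
      by_cases hex : ∃ k, 1 ≤ k ∧ k ≤ m ∧ es c' k ≠ 0
      · classical
        obtain ⟨h1, h2, h3⟩ := Nat.find_spec hex
        have h4 := Phi_coeff F c' β (Nat.find hex) h1 h2 (fun i hi1 hi2 => by
          by_contra hne
          exact Nat.find_min hex hi2 ⟨hi1, by omega, hne⟩)
        rw [hPhi, coeff_zero] at h4
        exact mul_ne_zero (mul_ne_zero (pow_ne_zero _ (by norm_num)) h3)
          (hg.2 β hu _ h1 h2) h4.symm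
      · push Not at hex
        have hc0 : ∀ j, c' j = 0 := by
          intro j₀
          have h1 := expand (c' j₀) 1 c'
          have h2 : ∏ j, (c' j₀ - 1 * c' j) = 0 :=
            Finset.prod_eq_zero (Finset.mem_univ j₀) (by ring)
          rw [h2, Finset.sum_eq_single 0] at h1
          · rw [pow_zero, es_zero, one_mul, one_mul, Nat.sub_zero] at h1
            exact pow_eq_zero_iff (by omega : m ≠ 0) |>.mp h1.symm
          · intro i hi hi0
            rw [Finset.mem_range] at hi
            rw [hex i (by omega) (by omega)]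
            ring
          · intro h3
            exact absurd (Finset.mem_range.mpr (by omega)) h3
        have h1 : c ⟨0, by omega⟩ = c ⟨1, by omega⟩ := by
          have e0 := hc0 ⟨0, by omega⟩
          have e1 := hc0 ⟨1, by omega⟩
          rw [hc'] at e0 e1
          exact add_right_cancel (e0.trans e1.symm)
        have h2 := hc h1
        rw [Fin.mk.injEq] at h2
        omega

end Pool.Agent.H910.Kh
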