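import Pool.Agent.H910.Kh.Stm

/-!
A polynomial condition on the coefficients of a hypersurface which implies the condition `Good`:
resultants.
-/

set_option autoImplicit false

open Polynomial

namespace Pool.Agent.H910.Kh.R3

/-- the coefficients of `(x - T) ^ m`, as polynomials in `T` -/
noncomputable def pt (A : Type) [CommRing A] (m k : ℕ) : Fin (m + 1) → A[X] := cf m ((X - C (X : A[X])) ^ k)

/-- the value at the point `(x - T) ^ m` -/
noncomputable def phi {A : Type} [CommRing A] (m : ℕ) (F : MvPolynomial (Fin (m + 1)) A) : A[X] :=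
  MvPolynomial.eval₂ (C : A →+* A[X]) (pt A m m) F

/-- the derivative at the point `(x - T) ^ m` in the direction `(x - T) ^ (m - k)` -/
noncomputable def psi {A : Type} [CommRing A] (m k : ℕ) (F : MvPolynomial (Fin (m + 1)) A) : A[X] :=
  ∑ i, MvPolynomial.eval₂ (C : A →+* A[X]) (pt A m m) (MvPolynomial.pderiv i F) * pt A m (m - k) i

lemma pt_hom {A B : Type} [CommRing A] [CommRing B] (h : A[X] →+* B) (m k : ℕ) (i : Fin (m + 1)) :
    h (pt A m k i) = cf m ((X - C (h X)) ^ k) i := by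
  unfold pt cf
  rw [← Polynomial.coeff_map]
  congr 1
  simp

lemma pt_map {A B : Type} [CommRing A] [CommRing B] (f : A →+* B) (m k : ℕ) (i : Fin (m + 1)) :
    (pt A m k i).map f = pt B m k i := by
  have := pt_hom (mapRingHom f) m k i
  rw [coe_mapRingHom, Polynomial.map_X] at this
  exact this

lemma ev_map {A B : Type} [CommRing A] [CommRing B] (f : A →+* B) (m : ℕ) (F : MvPolynomial (Fin (m + 1)) A) :
    (MvPolynomial.eval₂ (C : A →+* A[X]) (pt A m m) F).map f =
      MvPolynomial.eval₂ (C : B →+* B[X]) (pt B m m) (MvPolynomial.map f F) := by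
  have h1 := MvPolynomial.eval₂_comp_left (mapRingHom f) (C : A →+* A[X]) (pt A m m) F
  rw [coe_mapRingHom] at h1
  rw [h1, MvPolynomial.eval₂_map]
  have h2 : (mapRingHom f).comp (C : A →+* A[X]) = (C : B →+* B[X]).comp f := by
    ext a
    simp
  have h3 : (Polynomial.map f) ∘ (pt A m m) = pt B m m := by
    funext i
    exact pt_map f m m i
  rw [h2, h3]

lemma phi_map {A B : Type} [CommRing A] [CommRing B] (f : A →+* B) (m : ℕ) (F : MvPolynomial (Fin (m + 1)) A) :
    (phi m F).map f = phi m (MvPolynomial.map f F) := ev_map f m F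

lemma psi_map {A B : Type} [CommRing A] [CommRing B] (f : A →+* B) (m k : ℕ) (F : MvPolynomial (Fin (m + 1)) A) :
    (psi m k F).map f = psi m k (MvPolynomial.map f F) := by
  unfold psi
  rw [Polynomial.map_sum]
  apply Finset.sum_congr rfl
  intro i _
  rw [Polynomial.map_mul, ev_map, pt_map, MvPolynomial.pderiv_map]

lemma ev_eval {m : ℕ} (F : MvPolynomial (Fin (m + 1)) ℂ) (T : ℂ) :
    (MvPolynomial.eval₂ (C : ℂ →+* ℂ[X]) (pt ℂ m m) F).eval T = MvPolynomial.eval (cf m ((X - C T) ^ m)) F := by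
  have h1 := MvPolynomial.eval₂_comp_left (evalRingHom T) (C : ℂ →+* ℂ[X]) (pt ℂ m m) F
  rw [coe_evalRingHom] at h1
  rw [h1]
  have h2 : (evalRingHom T).comp (C : ℂ →+* ℂ[X]) = RingHom.id ℂ := by
    ext a
    simp
  have h3 : (Polynomial.eval T) ∘ (pt ℂ m m) = cf m ((X - C T) ^ m) := by
    funext i
    have := pt_hom (evalRingHom T) m m i
    rw [coe_evalRingHom, Polynomial.eval_X] at this
    exact this
  rw [h2, h3]
  rfl

lemma phi_eval {m : ℕ} (F : MvPolynomial (Fin (m + 1)) ℂ) (T : ℂ) :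
    (phi m F).eval T = MvPolynomial.eval (cf m ((X - C T) ^ m)) F := ev_eval F T

lemma psi_eval {m : ℕ} (k : ℕ) (F : MvPolynomial (Fin (m + 1)) ℂ) (T : ℂ) :
    (psi m k F).eval T = ∑ i, MvPolynomial.eval (cf m ((X - C T) ^ m)) (MvPolynomial.pderiv i F) *
        cf m ((X - C T) ^ (m - k)) i := by
  unfold psi
  rw [Polynomial.eval_finsetSum]
  apply Finset.sum_congr rfl
  intro i _
  rw [Polynomial.eval_mul, ev_eval]
  congr 1
  have := pt_hom (evalRingHom T) m (m - k) i
  rw [coe_evalRingHom, Polynomial.eval_X] at this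
  exact this

/-- the degrees of the coefficients -/
lemma pt_deg {A : Type} [CommRing A] (m : ℕ) (i : Fin (m + 1)) : (pt A m m i).natDegree ≤ m := by
  unfold pt cf
  have h : (X - C (X : A[X])) ^ m = (X + C (-X : A[X])) ^ m := by
    rw [C_neg]; ring
  rw [h, Polynomial.coeff_X_add_C_pow]
  refine natDegree_mul_le.trans ?_
  have h1 : ((-X : A[X]) ^ (m - (m - (i : ℕ)))).natDegree ≤ m := by
    refine natDegree_pow_le.trans ?_
    rw [natDegree_neg]
    have : (X : A[X]).natDegree ≤ 1 := natDegree_X_le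
    calc (m - (m - (i : ℕ))) * (X : A[X]).natDegree ≤ (m - (m - (i : ℕ))) * 1 := Nat.mul_le_mul_left _ this
      _ ≤ m := by omega
  rw [natDegree_natCast]
  omega

/-- the universal polynomial of degree `d` -/
noncomputable def U (m d : ℕ) : MvPolynomial (Fin (m + 1)) (MvPolynomial (Fin (m + 1) →₀ ℕ) ℂ) :=
  ∑ s ∈ (Finset.univ : Finset (Fin (m + 1))).finsuppAntidiag d, MvPolynomial.monomial s (MvPolynomial.X s)

/-- the specialisation -/
noncomputable def sp {m : ℕ} (F : MvPolynomial (Fin (m + 1)) ℂ) : MvPolynomial (Fin (m + 1) →₀ ℕ) ℂ →+* ℂ :=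
  MvPolynomial.eval (fun s => F.coeff s)

lemma U_map {m d : ℕ} {F : MvPolynomial (Fin (m + 1)) ℂ} (hF : F.IsHomogeneous d) :
    MvPolynomial.map (sp F) (U m d) = F := by
  unfold U sp
  rw [map_sum]
  simp only [MvPolynomial.map_monomial, MvPolynomial.eval_X]
  ext s
  rw [MvPolynomial.coeff_sum]
  simp only [MvPolynomial.coeff_monomial]
  rw [Finset.sum_ite_eq']
  split_ifs with h
  · rfl
  · symm
    apply hF.coeff_eq_zero
    intro hd
    apply h
    rw [Finset.mem_finsuppAntidiag]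
    refine ⟨?_, Finset.subset_univ _⟩
    rw [← hd, Finsupp.degree_eq_sum]

lemma U_hom (m d : ℕ) : (U m d).IsHomogeneous d := by
  unfold U
  apply MvPolynomial.IsHomogeneous.sum
  intro s hs
  apply MvPolynomial.isHomogeneous_monomial
  rw [Finset.mem_finsuppAntidiag] at hs
  rw [Finsupp.degree_eq_sum, hs.1]

lemma phi_deg {A : Type} [CommRing A] (m d : ℕ) (F : MvPolynomial (Fin (m + 1)) A) (hF : F.IsHomogeneous d) :
    (phi m F).natDegree ≤ d * m := by
  unfold phi
  rw [MvPolynomial.eval₂_eq']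
  apply natDegree_sum_le_of_forall_le
  intro s hs
  refine (natDegree_C_mul_le _ _).trans ?_
  refine (natDegree_prod_le _ _).trans ?_
  have h1 : ∑ i, s i = d := by
    rw [← Finsupp.degree_eq_sum]
    by_contra hne
    exact (MvPolynomial.mem_support_iff.mp hs) (hF.coeff_eq_zero hne)
  calc ∑ i, (pt A m m i ^ s i).natDegree ≤ ∑ i, s i * m := by
        apply Finset.sum_le_sum
        intro i _
        exact natDegree_pow_le.trans (Nat.mul_le_mul_left _ (pt_deg m i))
    _ = d * m := by rw [← Finset.sum_mul, h1]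

/-- the polynomial in the coefficients -/
noncomputable def PP (m d : ℕ) : MvPolynomial (Fin (m + 1) →₀ ℕ) ℂ :=
  MvPolynomial.eval (Pi.single (Fin.last m) 1) (U m d) *
    ∏ k ∈ Finset.Icc 1 m, resultant (phi m (U m d)) (psi m k (U m d)) (d * m) (psi m k (U m d)).natDegree

lemma PP_eval {m d : ℕ} {F : MvPolynomial (Fin (m + 1)) ℂ} (hF : F.IsHomogeneous d) :
    MvPolynomial.eval (fun s => F.coeff s) (PP m d) = MvPolynomial.eval (Pi.single (Fin.last m) 1) F *
      ∏ k ∈ Finset.Icc 1 m, resultant (phi m F) (psi m k F) (d * m) (psi m k (U m d)).natDegree := by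
  change sp F (PP m d) = _
  unfold PP
  rw [map_mul, map_prod]
  congr 1
  · have h1 := MvPolynomial.map_eval (sp F) (Pi.single (Fin.last m) 1) (U m d)
    rw [h1, U_map hF]
    congr 2
    funext i
    by_cases hi : i = Fin.last m
    · subst hi; simp
    · simp [Pi.single_eq_of_ne hi]
  · apply Finset.prod_congr rfl
    intro k _
    rw [← resultant_map_map, phi_map, psi_map, U_map hF]

lemma good_of {m d : ℕ} (hm : 1 ≤ m) (hd : 1 ≤ d) {F : MvPolynomial (Fin (m + 1)) ℂ} (hF : F.IsHomogeneous d)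
    (h : MvPolynomial.eval (fun s => F.coeff s) (PP m d) ≠ 0) : Good F := by
  rw [PP_eval hF] at h
  refine ⟨left_ne_zero_of_mul h, ?_⟩
  have h2 := right_ne_zero_of_mul h
  intro T hT k hk1 hk2
  have h3 := Finset.prod_ne_zero_iff.mp h2 k (Finset.mem_Icc.mpr ⟨hk1, hk2⟩)
  rw [← psi_eval]
  rw [← phi_eval] at hT
  intro h4
  have hn : (psi m k F).natDegree ≤ (psi m k (U m d)).natDegree := by
    have : psi m k F = (psi m k (U m d)).map (sp F) := by rw [psi_map, U_map hF]
    rw [this]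
    exact natDegree_map_le
  obtain ⟨p, q, _, _, e⟩ := exists_mul_add_mul_eq_C_resultant (phi m F) (psi m k F) (phi_deg m d F hF) hn
    (Or.inl (by positivity))
  have e2 := congrArg (Polynomial.eval T) e
  rw [eval_add, eval_mul, eval_mul, hT, h4, zero_mul, zero_mul, add_zero, eval_C] at e2
  exact h3 e2.symm

/-- the example -/
noncomputable def F0 (m d : ℕ) : MvPolynomial (Fin (m + 1)) ℂ :=
  MvPolynomial.X (Fin.last m) ^ d - MvPolynomial.X 0 ^ d

lemma F0_hom (m d : ℕ) : (F0 m d).IsHomogeneous d := by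
  unfold F0
  exact (MvPolynomial.isHomogeneous_X_pow _ _).sub (MvPolynomial.isHomogeneous_X_pow _ _)

lemma pt_last (A : Type) [CommRing A] (m k : ℕ) : pt A m k (Fin.last m) = (-1) ^ k * X ^ k := by
  unfold pt cf
  rw [Fin.val_last, Nat.sub_self, coeff_zero_eq_eval_zero]
  simp only [eval_pow, eval_sub, eval_X, eval_C, zero_sub]
  rw [neg_pow]

lemma pt_zero_self (A : Type) [CommRing A] (m : ℕ) : pt A m m 0 = 1 := by
  unfold pt cf
  have h : (X - C (X : A[X])) ^ m = (X + C (-X : A[X])) ^ m := by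
    rw [C_neg]; ring
  rw [h, Polynomial.coeff_X_add_C_pow]
  simp

lemma pt_zero_lt (A : Type) [CommRing A] (m k : ℕ) (hk : k < m) : pt A m k 0 = 0 := by
  unfold pt cf
  have h : (X - C (X : A[X])) ^ k = (X + C (-X : A[X])) ^ k := by
    rw [C_neg]; ring
  rw [h, Polynomial.coeff_X_add_C_pow]
  rw [Fin.val_zero, Nat.sub_zero, Nat.choose_eq_zero_of_lt hk]
  simp

lemma phi_F0 (m d : ℕ) : phi m (F0 m d) = ((-1) ^ m * X ^ m) ^ d - 1 := by
  unfold phi F0
  rw [MvPolynomial.eval₂_sub, MvPolynomial.eval₂_pow, MvPolynomial.eval₂_pow, MvPolynomial.eval₂_X,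
    MvPolynomial.eval₂_X, pt_last, pt_zero_self, one_pow]

lemma psi_F0 (m d k : ℕ) (hm : 1 ≤ m) (hk1 : 1 ≤ k) (hk2 : k ≤ m) :
    psi m k (F0 m d) = C ((d : ℂ) * (-1) ^ (m * (d - 1) + (m - k))) * X ^ (m * (d - 1) + (m - k)) := by
  unfold psi F0
  have h0 : (0 : Fin (m + 1)) ≠ Fin.last m := by
    intro h
    have := congrArg Fin.val h
    rw [Fin.val_zero, Fin.val_last] at this
    omega
  have h1 : ∀ i : Fin (m + 1), MvPolynomial.eval₂ (C : ℂ →+* ℂ[X]) (pt ℂ m m)
      (MvPolynomial.pderiv i (MvPolynomial.X (Fin.last m) ^ d - MvPolynomial.X 0 ^ d)) * pt ℂ m (m - k) i =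
      (if i = Fin.last m then (d : ℂ[X]) * ((-1) ^ m * X ^ m) ^ (d - 1) * ((-1) ^ (m - k) * X ^ (m - k)) else 0) := by
    intro i
    rw [map_sub, MvPolynomial.pderiv_pow, MvPolynomial.pderiv_pow, MvPolynomial.pderiv_X, MvPolynomial.pderiv_X]
    by_cases hi : i = Fin.last m
    · subst hi
      rw [if_pos rfl, Pi.single_eq_same, Pi.single_eq_of_ne h0]
      rw [mul_zero, sub_zero, mul_one, MvPolynomial.eval₂_mul, MvPolynomial.eval₂_pow, MvPolynomial.eval₂_X,
        pt_last, pt_last, MvPolynomial.eval₂_natCast]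
    · rw [if_neg hi]
      by_cases hi0 : i = 0
      · subst hi0
        rw [pt_zero_lt ℂ m (m - k) (by omega), mul_zero]
      · rw [Pi.single_eq_of_ne (Ne.symm hi), Pi.single_eq_of_ne (Ne.symm hi0)]
        simp
  rw [Finset.sum_congr rfl (fun i _ => h1 i), Finset.sum_ite_eq' Finset.univ (Fin.last m), if_pos (Finset.mem_univ _)]
  rw [C_mul, C_pow, C_neg, C_1, mul_pow, ← pow_mul, ← pow_mul, pow_add, pow_add, C_eq_natCast]
  ring

lemma F0_ne {m d : ℕ} (hm : 1 ≤ m) (hd : 1 ≤ d) :
    MvPolynomial.eval (fun s => (F0 m d).coeff s) (PP m d) ≠ 0 := by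
  rw [PP_eval (F0_hom m d)]
  apply mul_ne_zero
  · have h0 : (0 : Fin (m + 1)) ≠ Fin.last m := by
      intro h
      have := congrArg Fin.val h
      rw [Fin.val_zero, Fin.val_last] at this
      omega
    unfold F0
    rw [map_sub, map_pow, map_pow, MvPolynomial.eval_X, MvPolynomial.eval_X, Pi.single_eq_same,
      Pi.single_eq_of_ne h0, zero_pow (by omega)]
    simp
  · rw [Finset.prod_ne_zero_iff]
    intro k hk
    rw [Finset.mem_Icc] at hk
    have hpsi := psi_F0 m d k hm hk.1 hk.2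
    set n0 := m * (d - 1) + (m - k) with hn0
    have hc : (d : ℂ) * (-1) ^ n0 ≠ 0 := by
      apply mul_ne_zero
      · exact_mod_cast (by omega : d ≠ 0)
      · exact pow_ne_zero _ (by norm_num)
    have hdeg : (psi m k (F0 m d)).natDegree = n0 := by
      rw [hpsi, natDegree_C_mul_X_pow _ _ hc]
    have hn : n0 ≤ (psi m k (U m d)).natDegree := by
      have : psi m k (F0 m d) = (psi m k (U m d)).map (sp (F0 m d)) := by rw [psi_map, U_map (F0_hom m d)]
      rw [← hdeg, this]
      exact natDegree_map_le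
    obtain ⟨j, hj⟩ := Nat.exists_eq_add_of_le hn
    rw [hj, resultant_add_right_deg _ _ _ _ j hdeg.le, hpsi, resultant_C_mul_right,
      resultant_X_pow_right _ _ _ (phi_deg m d _ (F0_hom m d))]
    have hdm : d * m ≠ 0 := by positivity
    have e1 : (phi m (F0 m d)).coeff (d * m) ≠ 0 := by
      rw [phi_F0, mul_pow, ← pow_mul, ← pow_mul, mul_comm m d]
      have : ((-1 : ℂ[X]) ^ (d * m)) = C ((-1) ^ (d * m)) := by simp
      rw [this, coeff_sub, coeff_C_mul, coeff_X_pow_self, mul_one, coeff_one, if_neg (by omega), sub_zero]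
      exact pow_ne_zero _ (by norm_num)
    have e2 : (phi m (F0 m d)).coeff 0 ≠ 0 := by
      rw [phi_F0, coeff_zero_eq_eval_zero]
      simp only [eval_sub, eval_pow, eval_mul, eval_neg, eval_one, eval_X]
      rw [zero_pow (by omega), mul_zero, zero_pow (by omega)]
      norm_num
    apply mul_ne_zero (pow_ne_zero _ e1)
    apply mul_ne_zero (pow_ne_zero _ hc)
    apply mul_ne_zero (pow_ne_zero _ (by norm_num)) (pow_ne_zero _ e2)

end Pool.Agent.H910.Kh.R3

namespace Pool.Agent.H910.Kh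

open R3

theorem t_gen : S_gen := by
  intro m d hm hd
  exact ⟨PP m d, ⟨F0 m d, F0_hom m d, F0_ne hm hd⟩, fun F hF h => good_of hm hd hF h⟩

end Pool.Agent.H910.Kh
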