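import Pool.Agent.H910.Kh.Stm2

/-!
General linear transformations: step 7 from the steps 5 and 6.
-/

set_option autoImplicit false

open Polynomial

namespace Pool.Agent.H910.Kh.R7

/-- the vector `B x` -/
noncomputable def mv {m : ℕ} (B : Matrix (Fin (m + 1)) (Fin (m + 1)) ℂ) (x : Fin (m + 1) → ℂ) :
    Fin (m + 1) → ℂ := fun i => ∑ j, B i j * x j

lemma eval_lin {m : ℕ} (B : Matrix (Fin (m + 1)) (Fin (m + 1)) ℂ) (x : Fin (m + 1) → ℂ)
    (F : MvPolynomial (Fin (m + 1)) ℂ) :
    MvPolynomial.eval x (lin B F) = MvPolynomial.eval (mv B x) F := by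
  induction F using MvPolynomial.induction_on with
  | C a => simp [lin]
  | add p q hp hq =>
    have h : lin B (p + q) = lin B p + lin B q := by simp [lin]
    rw [h, map_add, map_add, hp, hq]
  | mul_X p i hp =>
    have h : lin B (p * MvPolynomial.X i) = lin B p * lin B (MvPolynomial.X i) := by simp [lin]
    have h2 : MvPolynomial.eval x (lin B (MvPolynomial.X i)) = mv B x i := by simp [lin, mv]
    rw [h, map_mul, map_mul, hp, MvPolynomial.eval_X, h2]

lemma chain {m : ℕ} (B : Matrix (Fin (m + 1)) (Fin (m + 1)) ℂ) (x y : Fin (m + 1) → ℂ)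
    (F : MvPolynomial (Fin (m + 1)) ℂ) :
    ∑ k, MvPolynomial.eval x (MvPolynomial.pderiv k (lin B F)) * y k =
      ∑ i, MvPolynomial.eval (mv B x) (MvPolynomial.pderiv i F) * mv B y i := by
  induction F using MvPolynomial.induction_on with
  | C a => simp [lin]
  | add p q hp hq =>
    have h : lin B (p + q) = lin B p + lin B q := by simp [lin]
    simp only [h, map_add, add_mul, Finset.sum_add_distrib, hp, hq]
  | mul_X p j hp =>
    have h : lin B (p * MvPolynomial.X j) =
        lin B p * ∑ l, MvPolynomial.C (B j l) * MvPolynomial.X l := by simp [lin]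
    have e1 : ∀ k, MvPolynomial.eval x (MvPolynomial.pderiv k
        (∑ l, MvPolynomial.C (B j l) * MvPolynomial.X l)) = B j k := by
      intro k
      rw [map_sum, map_sum, Finset.sum_eq_single k]
      · rw [MvPolynomial.pderiv_C_mul, MvPolynomial.pderiv_X_self, map_mul, MvPolynomial.eval_C,
          map_one, mul_one]
      · intro l _ hl
        rw [MvPolynomial.pderiv_C_mul, MvPolynomial.pderiv_X_of_ne hl, mul_zero, map_zero]
      · intro hk
        exact absurd (Finset.mem_univ k) hk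
    have e2 : MvPolynomial.eval x (∑ l, MvPolynomial.C (B j l) * MvPolynomial.X l) = mv B x j := by
      simp [mv]
    have e3 : ∀ k, MvPolynomial.eval x (MvPolynomial.pderiv k (lin B (p * MvPolynomial.X j))) * y k =
        mv B x j * (MvPolynomial.eval x (MvPolynomial.pderiv k (lin B p)) * y k) +
          MvPolynomial.eval (mv B x) p * (B j k * y k) := by
      intro k
      rw [h, MvPolynomial.pderiv_mul, map_add, map_mul, map_mul, e1, e2, eval_lin]
      ring
    have e4 : ∀ i, MvPolynomial.eval (mv B x) (MvPolynomial.pderiv i (p * MvPolynomial.X j)) *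
        mv B y i = mv B x j * (MvPolynomial.eval (mv B x) (MvPolynomial.pderiv i p) * mv B y i) +
          (if i = j then MvPolynomial.eval (mv B x) p * mv B y j else 0) := by
      intro i
      rw [MvPolynomial.pderiv_mul, map_add, map_mul, map_mul, MvPolynomial.eval_X]
      by_cases hi : i = j
      · subst hi
        rw [MvPolynomial.pderiv_X_self, map_one, if_pos rfl]
        ring
      · rw [MvPolynomial.pderiv_X_of_ne (Ne.symm hi), map_zero, if_neg hi]
        ring
    rw [Finset.sum_congr rfl (fun k _ => e3 k), Finset.sum_congr rfl (fun i _ => e4 i),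
      Finset.sum_add_distrib, Finset.sum_add_distrib, ← Finset.mul_sum, ← Finset.mul_sum,
      ← Finset.mul_sum, hp, Finset.sum_ite_eq' Finset.univ j, if_pos (Finset.mem_univ _)]
    rfl

lemma lin_hom {m d : ℕ} (B : Matrix (Fin (m + 1)) (Fin (m + 1)) ℂ)
    {F : MvPolynomial (Fin (m + 1)) ℂ} (hF : F.IsHomogeneous d) : (lin B F).IsHomogeneous d := by
  have h := hF.aeval (n := 1) (fun i => ∑ j, MvPolynomial.C (B i j) * MvPolynomial.X j) (by
    intro i
    apply MvPolynomial.IsHomogeneous.sum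
    intro j _
    have h1 := (MvPolynomial.isHomogeneous_C (Fin (m + 1)) (B i j)).mul
      (MvPolynomial.isHomogeneous_X ℂ j)
    rwa [zero_add] at h1)
  rw [one_mul] at h
  exact h

/-- the matrix with the columns `u`, `w` and zero columns -/
noncomputable def A0 {m : ℕ} (u w : Fin (m + 1) → ℂ) : Matrix (Fin (m + 1)) (Fin (m + 1)) ℂ :=
  fun i j => if j = 0 then u i else if j = Fin.last m then w i else 0

lemma last_ne {m : ℕ} (hm : 1 ≤ m) : Fin.last m ≠ 0 := by
  intro h
  have := congrArg Fin.val h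
  rw [Fin.val_zero, Fin.val_last] at this
  omega

lemma mv_A0 {m : ℕ} (hm : 1 ≤ m) (u w x : Fin (m + 1) → ℂ) :
    mv (A0 u w) x = x 0 • u + x (Fin.last m) • w := by
  funext i
  have h1 : ∀ j, A0 u w i j * x j =
      (if j = 0 then u i * x 0 else 0) + (if j = Fin.last m then w i * x (Fin.last m) else 0) := by
    intro j
    unfold A0
    by_cases h0 : j = 0
    · subst h0
      rw [if_pos rfl, if_pos rfl, if_neg (Ne.symm (last_ne hm)), add_zero]
    · rw [if_neg h0, if_neg h0]
      by_cases h2 : j = Fin.last m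
      · subst h2
        rw [if_pos rfl, if_pos rfl, zero_add]
      · rw [if_neg h2, if_neg h2, zero_mul, zero_add]
  unfold mv
  rw [Finset.sum_congr rfl (fun j _ => h1 j), Finset.sum_add_distrib,
    Finset.sum_ite_eq' Finset.univ (0 : Fin (m + 1)), if_pos (Finset.mem_univ _),
    Finset.sum_ite_eq' Finset.univ (Fin.last m), if_pos (Finset.mem_univ _)]
  simp only [Pi.add_apply, Pi.smul_apply, smul_eq_mul]
  ring

lemma cf_last (m k : ℕ) (T : ℂ) : cf m ((X - C T) ^ k) (Fin.last m) = (-T) ^ k := by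
  unfold cf
  rw [Fin.val_last, Nat.sub_self, coeff_zero_eq_eval_zero]
  simp

lemma cf_zero (m k : ℕ) (T : ℂ) : cf m ((X - C T) ^ k) 0 = (R3.pt ℂ m k 0).eval T := by
  have h := R3.pt_hom (evalRingHom T) m k 0
  rw [coe_evalRingHom, Polynomial.eval_X] at h
  exact h.symm

lemma good_A0 {m : ℕ} (hm : 1 ≤ m) {F : MvPolynomial (Fin (m + 1)) ℂ} {u w : Fin (m + 1) → ℂ}
    (hu : MvPolynomial.eval u F ≠ 0) (hw : MvPolynomial.eval w F ≠ 0)
    (h : ∀ s : ℂ, MvPolynomial.eval (u + s • w) F = 0 →
      ∑ i, MvPolynomial.eval (u + s • w) (MvPolynomial.pderiv i F) * w i ≠ 0) :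
    Good (lin (A0 u w) F) := by
  refine ⟨?_, ?_⟩
  · rw [eval_lin, mv_A0 hm, Pi.single_eq_same, Pi.single_eq_of_ne (Ne.symm (last_ne hm)), zero_smul,
      zero_add, one_smul]
    exact hw
  · intro T hT k hk1 hk2
    have hx : mv (A0 u w) (cf m ((X - C T) ^ m)) = u + ((-T) ^ m) • w := by
      rw [mv_A0 hm, cf_last, cf_zero, R3.pt_zero_self, eval_one, one_smul]
    have hy : mv (A0 u w) (cf m ((X - C T) ^ (m - k))) = ((-T) ^ (m - k)) • w := by
      rw [mv_A0 hm, cf_last, cf_zero, R3.pt_zero_lt ℂ m (m - k) (by omega), eval_zero, zero_smul,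
        zero_add]
    rw [eval_lin, hx] at hT
    rw [chain, hx, hy]
    have hT0 : T ≠ 0 := by
      intro h0
      rw [h0, neg_zero, zero_pow (by omega), zero_smul, add_zero] at hT
      exact hu hT
    have h1 := h _ hT
    have h2 : ∑ i, MvPolynomial.eval (u + ((-T) ^ m) • w) (MvPolynomial.pderiv i F) *
        (((-T) ^ (m - k)) • w) i = (-T) ^ (m - k) *
          ∑ i, MvPolynomial.eval (u + ((-T) ^ m) • w) (MvPolynomial.pderiv i F) * w i := by
      rw [Finset.mul_sum]
      apply Finset.sum_congr rfl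
      intro i _
      rw [Pi.smul_apply, smul_eq_mul]
      ring
    rw [h2]
    exact mul_ne_zero (pow_ne_zero _ (neg_ne_zero.mpr hT0)) h1

/-- the form `F (B x)` for the generic matrix `B` -/
noncomputable def LF {m : ℕ} (F : MvPolynomial (Fin (m + 1)) ℂ) :
    MvPolynomial (Fin (m + 1)) (MvPolynomial (Fin (m + 1) × Fin (m + 1)) ℂ) :=
  MvPolynomial.eval₂ (MvPolynomial.C.comp MvPolynomial.C)
    (fun i => ∑ j, MvPolynomial.C (MvPolynomial.X (i, j)) * MvPolynomial.X j) F

lemma LF_map {m : ℕ} (B : Matrix (Fin (m + 1)) (Fin (m + 1)) ℂ)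
    (F : MvPolynomial (Fin (m + 1)) ℂ) :
    MvPolynomial.map (MvPolynomial.eval (fun p : Fin (m + 1) × Fin (m + 1) => B p.1 p.2)) (LF F) =
      lin B F := by
  induction F using MvPolynomial.induction_on with
  | C a => simp [lin, LF]
  | add p q hp hq =>
    have h : lin B (p + q) = lin B p + lin B q := by simp [lin]
    have h1 : LF (p + q) = LF p + LF q := by simp [LF]
    rw [h, h1, map_add, hp, hq]
  | mul_X p i hp =>
    have h : lin B (p * MvPolynomial.X i) = lin B p * lin B (MvPolynomial.X i) := by simp [lin]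
    have h1 : LF (p * MvPolynomial.X i) = LF p * LF (MvPolynomial.X i) := by simp [LF]
    have h2 : MvPolynomial.map (MvPolynomial.eval
        (fun p : Fin (m + 1) × Fin (m + 1) => B p.1 p.2)) (LF (MvPolynomial.X i)) =
        lin B (MvPolynomial.X i) := by simp [lin, LF]
    rw [h, h1, map_mul, hp, h2]

/-- the polynomial `PP` at the coefficients of `LF F` -/
noncomputable def Ps {m : ℕ} (d : ℕ) (F : MvPolynomial (Fin (m + 1)) ℂ) :
    MvPolynomial (Fin (m + 1) × Fin (m + 1)) ℂ :=
  MvPolynomial.aeval (fun s => (LF F).coeff s) (R3.PP m d)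

lemma Ps_eval {m : ℕ} (d : ℕ) (B : Matrix (Fin (m + 1)) (Fin (m + 1)) ℂ)
    (F : MvPolynomial (Fin (m + 1)) ℂ) :
    MvPolynomial.eval (fun p : Fin (m + 1) × Fin (m + 1) => B p.1 p.2) (Ps d F) =
      MvPolynomial.eval (fun s => (lin B F).coeff s) (R3.PP m d) := by
  have h : (fun s => (lin B F).coeff s) = fun s =>
      MvPolynomial.eval (fun p : Fin (m + 1) × Fin (m + 1) => B p.1 p.2) ((LF F).coeff s) := by
    funext s
    rw [← LF_map B F, MvPolynomial.coeff_map]
  rw [h]
  unfold Ps
  rw [MvPolynomial.aeval_def, MvPolynomial.eval_eval₂]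
  have hc : (MvPolynomial.eval (fun p : Fin (m + 1) × Fin (m + 1) => B p.1 p.2)).comp
      (algebraMap ℂ (MvPolynomial (Fin (m + 1) × Fin (m + 1)) ℂ)) = RingHom.id ℂ := by
    ext a
    rw [RingHom.comp_apply, MvPolynomial.algebraMap_eq, MvPolynomial.eval_C, RingHom.id_apply]
  rw [hc, MvPolynomial.eval₂_id]

end Pool.Agent.H910.Kh.R7

namespace Pool.Agent.H910.Kh

open R7

theorem t_gl (h5 : S_iff) (h6 : S_line) : S_gl := by
  intro m d hm hd F hF hsq
  obtain ⟨u, w, hu, hw, h⟩ := h6 m d hd F hF hsq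
  have hg := good_A0 hm hu hw h
  have h7 := h5 m d hm hd (lin (A0 u w) F) (lin_hom _ hF) hg
  have hP : Ps d F ≠ 0 := by
    intro h0
    rw [← Ps_eval, h0, map_zero] at h7
    exact h7 rfl
  refine ⟨Ps d F * (Matrix.mvPolynomialX (Fin (m + 1)) (Fin (m + 1)) ℂ).det,
    mul_ne_zero hP (Matrix.det_mvPolynomialX_ne_zero (Fin (m + 1)) ℂ), fun B hB => ?_⟩
  rw [map_mul] at hB
  have h8 := left_ne_zero_of_mul hB
  have h9 := right_ne_zero_of_mul hB
  rw [Ps_eval] at h8
  refine ⟨?_, R3.good_of hm hd (lin_hom B hF) h8⟩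
  rw [RingHom.map_det, Matrix.mvPolynomialX_mapMatrix_eval] at h9
  exact isUnit_iff_ne_zero.mpr h9

end Pool.Agent.H910.Kh
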