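import Pool.Agent.H910.Kh.Stm2

/-!
Step 5: the polynomial of `Gen` does not vanish at the forms in general position.
-/

set_option autoImplicit false

open Polynomial

namespace Pool.Agent.H910.Kh.R5

open R3

/-- the degrees of the coefficients of `(x - T) ^ m` in `T` -/
lemma pt_deg' {A : Type} [CommRing A] (m : ℕ) (i : Fin (m + 1)) : (pt A m m i).natDegree ≤ (i : ℕ) := by
  unfold pt cf
  have h : (X - C (X : A[X])) ^ m = (X + C (-X : A[X])) ^ m := by
    rw [C_neg]; ring
  rw [h, Polynomial.coeff_X_add_C_pow]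
  refine natDegree_mul_le.trans ?_
  have h1 : ((-X : A[X]) ^ (m - (m - (i : ℕ)))).natDegree ≤ (i : ℕ) := by
    refine natDegree_pow_le.trans ?_
    rw [natDegree_neg]
    have h2 : (X : A[X]).natDegree ≤ 1 := natDegree_X_le
    have h3 := i.2
    calc (m - (m - (i : ℕ))) * (X : A[X]).natDegree ≤ (m - (m - (i : ℕ))) * 1 := Nat.mul_le_mul_left _ h2
      _ ≤ (i : ℕ) := by omega
  rw [natDegree_natCast]
  omega

/-- a multiindex of degree `d` which is not concentrated at the last place -/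
lemma exists_lt {m d : ℕ} (s : Fin (m + 1) →₀ ℕ) (hs : ∑ i, s i = d)
    (hne : s ≠ Finsupp.single (Fin.last m) d) : ∃ i : Fin (m + 1), i ≠ Fin.last m ∧ s i ≠ 0 := by
  by_contra hcon
  push Not at hcon
  apply hne
  have h1 : ∑ i, s i = s (Fin.last m) := Finset.sum_eq_single _ (fun i _ hi => hcon i hi) (by simp)
  ext i
  by_cases hi : i = Fin.last m
  · subst hi
    rw [Finsupp.single_eq_same, ← h1, hs]
  · rw [hcon i hi, Finsupp.single_eq_of_ne hi]

lemma term_deg {m d : ℕ} (s : Fin (m + 1) →₀ ℕ) (hs : ∑ i, s i = d)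
    (hne : s ≠ Finsupp.single (Fin.last m) d) : (∏ i, pt ℂ m m i ^ s i).natDegree < d * m := by
  refine (natDegree_prod_le _ _).trans_lt ?_
  have h1 : ∑ i, (pt ℂ m m i ^ s i).natDegree ≤ ∑ i : Fin (m + 1), s i * (i : ℕ) :=
    Finset.sum_le_sum fun i _ => natDegree_pow_le.trans (Nat.mul_le_mul_left _ (pt_deg' m i))
  refine h1.trans_lt ?_
  rw [← hs, Finset.sum_mul]
  obtain ⟨i, hi, hi0⟩ := exists_lt s hs hne
  refine Finset.sum_lt_sum (fun j _ => Nat.mul_le_mul_left _ (by have := j.2; omega)) ⟨i, Finset.mem_univ _, ?_⟩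
  apply Nat.mul_lt_mul_of_pos_left _ (by omega)
  have h2 := i.2
  have h3 : (i : ℕ) ≠ m := fun h => hi (Fin.ext (by rw [h, Fin.val_last]))
  omega

lemma sum_supp {m d : ℕ} {F : MvPolynomial (Fin (m + 1)) ℂ} (hF : F.IsHomogeneous d) {s : Fin (m + 1) →₀ ℕ}
    (hs : s ∈ F.support) : ∑ i, s i = d := by
  rw [← Finsupp.degree_eq_sum]
  by_contra hne
  exact (MvPolynomial.mem_support_iff.mp hs) (hF.coeff_eq_zero hne)

lemma coeff_phi {m d : ℕ} {F : MvPolynomial (Fin (m + 1)) ℂ} (hF : F.IsHomogeneous d) :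
    (phi m F).coeff (d * m) = F.coeff (Finsupp.single (Fin.last m) d) * (-1) ^ (m * d) := by
  unfold phi
  rw [MvPolynomial.eval₂_eq', finsetSum_coeff]
  have h1 : ∀ s ∈ F.support, s ≠ Finsupp.single (Fin.last m) d →
      (C (F.coeff s) * ∏ i, pt ℂ m m i ^ s i).coeff (d * m) = 0 := by
    intro s hs hne
    rw [coeff_C_mul, coeff_eq_zero_of_natDegree_lt (term_deg s (sum_supp hF hs) hne), mul_zero]
  have h2 : (C (F.coeff (Finsupp.single (Fin.last m) d)) *
      ∏ i, pt ℂ m m i ^ (Finsupp.single (Fin.last m) d) i).coeff (d * m) =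
      F.coeff (Finsupp.single (Fin.last m) d) * (-1) ^ (m * d) := by
    rw [Finset.prod_eq_single (Fin.last m) (fun i _ hi => by rw [Finsupp.single_eq_of_ne hi, pow_zero])
      (by simp), Finsupp.single_eq_same, pt_last, coeff_C_mul, mul_pow, ← pow_mul, ← pow_mul, mul_comm d m]
    congr 1
    have : ((-1 : ℂ[X]) ^ (m * d)) = C ((-1) ^ (m * d)) := by simp
    rw [this, coeff_C_mul, coeff_X_pow_self, mul_one]
  rw [Finset.sum_eq_single (Finsupp.single (Fin.last m) d) h1, h2]
  intro h3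
  rw [h2, MvPolynomial.notMem_support_iff.mp h3, zero_mul]

lemma eval_last {m d : ℕ} {F : MvPolynomial (Fin (m + 1)) ℂ} (hF : F.IsHomogeneous d) :
    MvPolynomial.eval (Pi.single (Fin.last m) 1) F = F.coeff (Finsupp.single (Fin.last m) d) := by
  rw [MvPolynomial.eval_eq']
  have h1 : ∀ s ∈ F.support, s ≠ Finsupp.single (Fin.last m) d →
      F.coeff s * ∏ i, (Pi.single (Fin.last m) 1 : Fin (m + 1) → ℂ) i ^ s i = 0 := by
    intro s hs hne
    obtain ⟨i, hi, hi0⟩ := exists_lt s (sum_supp hF hs) hne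
    rw [Finset.prod_eq_zero (Finset.mem_univ i) (by rw [Pi.single_eq_of_ne hi, zero_pow hi0]), mul_zero]
  have h2 : F.coeff (Finsupp.single (Fin.last m) d) *
      ∏ i, (Pi.single (Fin.last m) 1 : Fin (m + 1) → ℂ) i ^ (Finsupp.single (Fin.last m) d) i =
      F.coeff (Finsupp.single (Fin.last m) d) := by
    rw [Finset.prod_eq_single (Fin.last m) (fun i _ hi => by rw [Finsupp.single_eq_of_ne hi, pow_zero])
      (by simp), Pi.single_eq_same, one_pow, mul_one]
  rw [Finset.sum_eq_single (Finsupp.single (Fin.last m) d) h1, h2]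
  intro h3
  rw [h2, MvPolynomial.notMem_support_iff.mp h3]

end Pool.Agent.H910.Kh.R5

namespace Pool.Agent.H910.Kh

open R3 R5

theorem t_iff : S_iff := by
  intro m d hm hd F hF hG
  rw [PP_eval hF]
  refine mul_ne_zero hG.1 ?_
  rw [Finset.prod_ne_zero_iff]
  intro k hk
  rw [Finset.mem_Icc] at hk
  have hc : (phi m F).coeff (d * m) ≠ 0 := by
    rw [coeff_phi hF, ← eval_last hF]
    exact mul_ne_zero hG.1 (pow_ne_zero _ (by norm_num))
  have hdeg : (phi m F).natDegree = d * m := natDegree_eq_of_le_of_coeff_ne_zero (phi_deg m d F hF) hc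
  have hn : (psi m k F).natDegree ≤ (psi m k (U m d)).natDegree := by
    have : psi m k F = (psi m k (U m d)).map (sp F) := by rw [psi_map, U_map hF]
    rw [this]
    exact natDegree_map_le
  have hphi0 : phi m F ≠ 0 := by
    intro h
    rw [h] at hc
    exact hc (coeff_zero _)
  have h1 := resultant_eq_prod_eval (phi m F) (psi m k F) (psi m k (U m d)).natDegree hn
    (IsAlgClosed.splits _)
  rw [hdeg] at h1
  rw [h1]
  refine mul_ne_zero (pow_ne_zero _ (leadingCoeff_ne_zero.mpr hphi0)) ?_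
  rw [Ne, Multiset.prod_eq_zero_iff, Multiset.mem_map]
  rintro ⟨T, hT, hT2⟩
  rw [mem_roots hphi0, IsRoot.def, phi_eval] at hT
  rw [psi_eval] at hT2
  exact hG.2 T hT k hk.1 hk.2 hT2

end Pool.Agent.H910.Kh
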