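import Pool.Agent.H910.Kh.Stm2

/-!
A general line is transversal to a reduced hypersurface (`S_line`; proof by helper30).
-/

set_option autoImplicit false

open Polynomial

namespace Pool.Agent.H910.Kh.R6

section Gauss

variable {R : Type} [CommRing R] [IsDomain R] [UniqueFactorizationMonoid R]

theorem sqf_frac {K : Type} [Field K] [Algebra R K] [IsFractionRing R K] {H : R[X]}
    (hH : H ≠ 0) (h : Squarefree H) : Squarefree (H.map (algebraMap R K)) := by
  intro P hP
  have inst : NormalizedGCDMonoid R := Nonempty.some inferInstance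
  have hinj : Function.Injective (algebraMap R K) := IsFractionRing.injective R K
  have hP0 : P ≠ 0 := by
    rintro rfl
    rw [zero_mul, zero_dvd_iff] at hP
    exact hH (Polynomial.map_injective _ hinj (by rw [hP, Polynomial.map_zero]))
  obtain ⟨b, hb, hbN⟩ := IsLocalization.integerNormalization_spec (nonZeroDivisors R) P
  set N : R[X] := IsLocalization.integerNormalization (nonZeroDivisors R) P with hN
  have hb0 : algebraMap R K b ≠ 0 := by
    intro h0
    rw [← map_zero (algebraMap R K)] at h0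
    exact nonZeroDivisors.ne_zero hb (hinj h0)
  have h1 : N.primPart.map (algebraMap R K) ∣ P := by
    have h2 : N.primPart.map (algebraMap R K) ∣ N.map (algebraMap R K) :=
      Polynomial.map_dvd _ N.primPart_dvd
    rw [hbN] at h2
    have h3 : P = C (algebraMap R K b)⁻¹ * (b • P) := by
      rw [← algebraMap_smul K b P, Polynomial.smul_eq_C_mul, ← mul_assoc, ← C_mul,
        inv_mul_cancel₀ hb0, C_1, one_mul]
    rw [h3]
    exact h2.mul_left _
  have h4 : (N.primPart * N.primPart).map (algebraMap R K) ∣ H.map (algebraMap R K) := by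
    rw [Polynomial.map_mul]
    exact (mul_dvd_mul h1 h1).trans hP
  have h5 : N.primPart * N.primPart ∣ H :=
    ((N.isPrimitive_primPart).mul N.isPrimitive_primPart).dvd_of_fraction_map_dvd_fraction_map h4
  exact Polynomial.isUnit_or_eq_zero_of_isUnit_integerNormalization_primPart hP0 (h _ h5)

theorem bez [CharZero R] {H : R[X]} (hH : H ≠ 0) (h : Squarefree H) :
    ∃ (A B : R[X]) (r : R), r ≠ 0 ∧ A * H + B * derivative H = C r := by
  have hinj : Function.Injective (algebraMap R (FractionRing R)) :=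
    IsFractionRing.injective R (FractionRing R)
  have h1 : (H.map (algebraMap R (FractionRing R))).Separable :=
    PerfectField.separable_iff_squarefree.2 (sqf_frac hH h)
  obtain ⟨a, b, hab⟩ := h1
  obtain ⟨s, hs, hs'⟩ := IsLocalization.integerNormalization_spec (nonZeroDivisors R) a
  obtain ⟨t, ht, ht'⟩ := IsLocalization.integerNormalization_spec (nonZeroDivisors R) b
  refine ⟨C t * IsLocalization.integerNormalization (nonZeroDivisors R) a,
    C s * IsLocalization.integerNormalization (nonZeroDivisors R) b, t * s,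
    mul_ne_zero (nonZeroDivisors.ne_zero ht) (nonZeroDivisors.ne_zero hs), ?_⟩
  apply Polynomial.map_injective _ hinj
  rw [Polynomial.map_add, Polynomial.map_mul, Polynomial.map_mul, Polynomial.map_mul,
    Polynomial.map_mul, hs', ht', ← Polynomial.derivative_map, map_C, map_C, map_C,
    ← algebraMap_smul (FractionRing R) s a, ← algebraMap_smul (FractionRing R) t b,
    Polynomial.smul_eq_C_mul, Polynomial.smul_eq_C_mul, map_mul, C_mul]
  linear_combination (C (algebraMap R (FractionRing R) t) * C (algebraMap R (FractionRing R) s)) * hab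

end Gauss

variable {m : ℕ}

/-- the point `x + s w` -/
noncomputable def ln (w : Fin (m + 1) → ℂ) (i : Fin (m + 1)) : (MvPolynomial (Fin (m + 1)) ℂ)[X] :=
  C (MvPolynomial.X i) + C (MvPolynomial.C (w i)) * X

/-- the substitution `x ↦ x + s w`, on polynomials in `x` -/
noncomputable def sb (w : Fin (m + 1) → ℂ) :
    MvPolynomial (Fin (m + 1)) ℂ →+* (MvPolynomial (Fin (m + 1)) ℂ)[X] :=
  MvPolynomial.eval₂Hom ((C : MvPolynomial (Fin (m + 1)) ℂ →+* _).comp MvPolynomial.C) (ln w)

/-- the substitution `x ↦ x + s w` -/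
noncomputable def ph (w : Fin (m + 1) → ℂ) :
    (MvPolynomial (Fin (m + 1)) ℂ)[X] →+* (MvPolynomial (Fin (m + 1)) ℂ)[X] :=
  Polynomial.eval₂RingHom (sb w) X

theorem sb_C (w : Fin (m + 1) → ℂ) (a : ℂ) : sb w (MvPolynomial.C a) = C (MvPolynomial.C a) := by
  unfold sb
  rw [MvPolynomial.coe_eval₂Hom, MvPolynomial.eval₂_C]
  rfl

theorem sb_X (w : Fin (m + 1) → ℂ) (i : Fin (m + 1)) : sb w (MvPolynomial.X i) = ln w i := by
  unfold sb
  rw [MvPolynomial.coe_eval₂Hom, MvPolynomial.eval₂_X]

theorem ph_X (w : Fin (m + 1) → ℂ) : ph w X = X := by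
  unfold ph
  rw [Polynomial.coe_eval₂RingHom, Polynomial.eval₂_X]

theorem ph_C (w : Fin (m + 1) → ℂ) (p : MvPolynomial (Fin (m + 1)) ℂ) : ph w (C p) = sb w p := by
  unfold ph
  rw [Polynomial.coe_eval₂RingHom, Polynomial.eval₂_C]

theorem ph_inv (w w' : Fin (m + 1) → ℂ) (h : ∀ i, w i + w' i = 0)
    (p : (MvPolynomial (Fin (m + 1)) ℂ)[X]) : ph w' (ph w p) = p := by
  have h1 : (ph w').comp (ph w) = RingHom.id _ := by
    apply Polynomial.ringHom_ext'
    · apply MvPolynomial.ringHom_ext
      · intro a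
        show ph w' (ph w (C (MvPolynomial.C a))) = C (MvPolynomial.C a)
        rw [ph_C, sb_C, ph_C, sb_C]
      · intro i
        show ph w' (ph w (C (MvPolynomial.X i))) = C (MvPolynomial.X i)
        rw [ph_C, sb_X]
        unfold ln
        rw [map_add, map_mul, ph_C, ph_C, ph_X, sb_C, sb_X]
        unfold ln
        rw [add_assoc, ← add_mul, ← C_add, ← MvPolynomial.C_add, add_comm (w' i), h i,
          MvPolynomial.C_0, C_0, zero_mul, add_zero]
    · show ph w' (ph w X) = X
      rw [ph_X, ph_X]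
  exact congrArg (fun f : (MvPolynomial (Fin (m + 1)) ℂ)[X] →+* _ => f p) h1

theorem sqf_C {F : MvPolynomial (Fin (m + 1)) ℂ} (hF : Squarefree F) :
    Squarefree (C F : (MvPolynomial (Fin (m + 1)) ℂ)[X]) := by
  intro G hG
  have hF0 : (C F : (MvPolynomial (Fin (m + 1)) ℂ)[X]) ≠ 0 := C_ne_zero.2 hF.ne_zero
  have h1 : G.natDegree = 0 := by
    have h2 := Polynomial.natDegree_le_of_dvd ((dvd_mul_right G G).trans hG) hF0
    rw [natDegree_C] at h2
    omega
  rw [Polynomial.eq_C_of_natDegree_eq_zero h1, ← C_mul, Polynomial.C_dvd_iff_dvd_coeff] at hG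
  have h3 := hG 0
  rw [coeff_C_zero] at h3
  rw [Polynomial.eq_C_of_natDegree_eq_zero h1]
  exact (hF _ h3).map C

theorem sqf_H {F : MvPolynomial (Fin (m + 1)) ℂ} (hF : Squarefree F) (w : Fin (m + 1) → ℂ) :
    Squarefree (sb w F) := by
  intro P hP
  have h0 : ph (fun i => -w i) (sb w F) = C F := by
    rw [← ph_C, ph_inv w (fun i => -w i) (fun i => add_neg_cancel _)]
  have h1 : ph (fun i => -w i) P * ph (fun i => -w i) P ∣ C F := by
    obtain ⟨Q, hQ⟩ := hP
    refine ⟨ph (fun i => -w i) Q, ?_⟩
    rw [← h0, hQ, map_mul, map_mul]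
  have h2 : IsUnit (ph (fun i => -w i) P) := sqf_C hF _ h1
  have h3 : IsUnit (ph w (ph (fun i => -w i) P)) := h2.map (ph w)
  rw [ph_inv (fun i => -w i) w (fun i => neg_add_cancel _)] at h3
  exact h3

theorem der_sb (w : Fin (m + 1) → ℂ) (F : MvPolynomial (Fin (m + 1)) ℂ) :
    derivative (sb w F) = ∑ i, sb w (MvPolynomial.pderiv i F) * C (MvPolynomial.C (w i)) := by
  induction F using MvPolynomial.induction_on with
  | C a =>
    rw [sb_C, derivative_C]
    symm
    refine Finset.sum_eq_zero fun i _ => ?_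
    rw [MvPolynomial.pderiv_C, map_zero, zero_mul]
  | add p q hp hq =>
    rw [map_add, derivative_add, hp, hq, ← Finset.sum_add_distrib]
    refine Finset.sum_congr rfl fun i _ => ?_
    rw [map_add, map_add, add_mul]
  | mul_X p j hp =>
    have h1 : derivative (ln w j) = C (MvPolynomial.C (w j)) := by
      unfold ln
      rw [derivative_add, derivative_C, derivative_C_mul, derivative_X, mul_one, zero_add]
    have h2 : ∀ i, sb w (MvPolynomial.pderiv i (p * MvPolynomial.X j)) * C (MvPolynomial.C (w i)) =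
        sb w (MvPolynomial.pderiv i p) * C (MvPolynomial.C (w i)) * ln w j +
          (if i = j then sb w p * C (MvPolynomial.C (w j)) else 0) := by
      intro i
      rw [Derivation.leibniz, smul_eq_mul, smul_eq_mul, map_add, map_mul, map_mul, sb_X]
      by_cases hij : i = j
      · subst hij
        rw [MvPolynomial.pderiv_X_self, map_one, if_pos rfl]
        ring
      · rw [MvPolynomial.pderiv_X_of_ne (Ne.symm hij), map_zero, if_neg hij]
        ring
    rw [map_mul, derivative_mul, sb_X, h1, hp, Finset.sum_mul]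
    simp only [h2]
    rw [Finset.sum_add_distrib, Finset.sum_ite_eq' Finset.univ j, if_pos (Finset.mem_univ j)]

/-- the value at `x = u` and at the parameter `s` -/
noncomputable def ev (u : Fin (m + 1) → ℂ) (s : ℂ) : (MvPolynomial (Fin (m + 1)) ℂ)[X] →+* ℂ :=
  Polynomial.eval₂RingHom (MvPolynomial.eval u) s

theorem ev_C (u : Fin (m + 1) → ℂ) (s : ℂ) (p : MvPolynomial (Fin (m + 1)) ℂ) :
    ev u s (C p) = MvPolynomial.eval u p := by
  unfold ev
  rw [Polynomial.coe_eval₂RingHom, Polynomial.eval₂_C]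

theorem ev_sb (u w : Fin (m + 1) → ℂ) (s : ℂ) (p : MvPolynomial (Fin (m + 1)) ℂ) :
    ev u s (sb w p) = MvPolynomial.eval (u + s • w) p := by
  have h1 : (ev u s).comp (sb w) = MvPolynomial.eval (u + s • w) := by
    apply MvPolynomial.ringHom_ext
    · intro a
      show ev u s (sb w (MvPolynomial.C a)) = _
      rw [sb_C, ev_C, MvPolynomial.eval_C, MvPolynomial.eval_C]
    · intro i
      show ev u s (sb w (MvPolynomial.X i)) = _
      rw [sb_X]
      unfold ln
      rw [map_add, map_mul, ev_C, ev_C, MvPolynomial.eval_X, MvPolynomial.eval_C,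
        MvPolynomial.eval_X, Pi.add_apply, Pi.smul_apply, smul_eq_mul]
      have h2 : ev u s X = s := by
        unfold ev
        rw [Polynomial.coe_eval₂RingHom, Polynomial.eval₂_X]
      rw [h2]
      ring
  exact congrArg (fun f : MvPolynomial (Fin (m + 1)) ℂ →+* ℂ => f p) h1

theorem exists_ne {p : MvPolynomial (Fin (m + 1)) ℂ} (hp : p ≠ 0) :
    ∃ u : Fin (m + 1) → ℂ, MvPolynomial.eval u p ≠ 0 := by
  by_contra hcon
  push Not at hcon
  exact hp (MvPolynomial.funext fun u => by rw [hcon u, map_zero])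

end Pool.Agent.H910.Kh.R6

namespace Pool.Agent.H910.Kh

open R6 in
theorem t_line : S_line := by
  intro m d _ F _ hF
  obtain ⟨w, hw⟩ := exists_ne hF.ne_zero
  have hH := sqf_H hF w
  obtain ⟨A, B, r, hr, hAB⟩ := bez hH.ne_zero hH
  obtain ⟨u, hu⟩ := exists_ne (mul_ne_zero hr hF.ne_zero)
  rw [map_mul] at hu
  refine ⟨u, w, right_ne_zero_of_mul hu, hw, fun s hs hcon => ?_⟩
  have h1 := congrArg (ev u s) hAB
  rw [map_add, map_mul, map_mul, ev_sb, hs, mul_zero, zero_add, der_sb, ev_C, map_sum] at h1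
  have h2 : ∑ i, ev u s (sb w (MvPolynomial.pderiv i F) * C (MvPolynomial.C (w i))) =
      ∑ i, MvPolynomial.eval (u + s • w) (MvPolynomial.pderiv i F) * w i := by
    refine Finset.sum_congr rfl fun i _ => ?_
    rw [map_mul, ev_sb, ev_C, MvPolynomial.eval_C]
  rw [h2, hcon, mul_zero] at h1
  exact left_ne_zero_of_mul hu h1.symm

end Pool.Agent.H910.Kh
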