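import Pool.Agent.H910.Kh.Stm
import Pool.Agent.H910.Dsc.Root
import Pool.Graph.R_seed8.H187R3.Picard

/-!
Step 1: entire roots (by helper52).
-/

set_option autoImplicit false

open Polynomial Topology Filter

namespace Pool.Agent.H910.Kh

namespace R1

open Pool.Agent.H910.Dsc

/-- the coefficients in the increasing order -/
def cc {m : ℕ} (g : ℂ → Fin (m + 1) → ℂ) (j : Fin (m + 1)) (z : ℂ) : ℂ := g z (Fin.rev j)

theorem eval_pl {m : ℕ} (g : ℂ → Fin (m + 1) → ℂ) (z τ : ℂ) : (pl (g z)).eval τ = pv (cc g) z τ := by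
  unfold pl pv cc
  rw [Polynomial.eval_finsetSum, ← Equiv.sum_comp Fin.revPerm]
  refine Finset.sum_congr rfl fun j _ => ?_
  have h1 : m - ((Fin.rev j : Fin (m + 1)) : ℕ) = (j : ℕ) := by
    rw [Fin.val_rev]
    have := j.2
    omega
  rw [Fin.revPerm_apply, h1, Polynomial.eval_mul, Polynomial.eval_C, Polynomial.eval_pow, Polynomial.eval_X]

theorem eval_der {m : ℕ} (g : ℂ → Fin (m + 1) → ℂ) (z τ : ℂ) :
    (derivative (pl (g z))).eval τ = pdv (cc g) z τ := by
  have h1 := (pl (g z)).hasDerivAt τ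
  have h2 := pv_deriv (cc g) z τ
  have h3 : (fun t => (pl (g z)).eval t) = fun t => pv (cc g) z t := funext fun t => eval_pl g z t
  rw [h3] at h1
  exact h1.unique h2

theorem cc_last {m : ℕ} (g : ℂ → Fin (m + 1) → ℂ) (z : ℂ) : cc g (Fin.last m) z = g z 0 := by
  unfold cc
  rw [Fin.rev_last]

theorem simple {m : ℕ} {g : ℂ → Fin (m + 1) → ℂ} {z : ℂ} (h : (pl (g z)).Separable) {τ : ℂ}
    (h0 : pv (cc g) z τ = 0) : pdv (cc g) z τ ≠ 0 := by
  rw [← eval_der]
  rw [← eval_pl] at h0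
  have h1 := h.aeval_derivative_ne_zero (x := τ) (by rw [Polynomial.coe_aeval_eq_eval]; exact h0)
  rwa [Polynomial.coe_aeval_eq_eval] at h1

theorem coeff_pl {m : ℕ} (v : Fin (m + 1) → ℂ) : (pl v).coeff m = v 0 := by
  unfold pl
  rw [Polynomial.finsetSum_coeff, Finset.sum_eq_single 0]
  · simp
  · intro l _ hl
    rw [Polynomial.coeff_C_mul_X_pow, if_neg]
    intro h
    apply hl
    have := l.2
    apply Fin.ext
    show (l : ℕ) = 0
    omega
  · simp

theorem deg_le {m : ℕ} (v : Fin (m + 1) → ℂ) : (pl v).natDegree ≤ m := by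
  unfold pl
  refine Polynomial.natDegree_sum_le_of_forall_le _ _ fun l _ => ?_
  exact (Polynomial.natDegree_C_mul_X_pow_le _ _).trans (Nat.sub_le _ _)

theorem deg_eq {m : ℕ} {v : Fin (m + 1) → ℂ} (h : v 0 ≠ 0) : (pl v).natDegree = m := by
  refine le_antisymm (deg_le v) (Polynomial.le_natDegree_of_ne_zero ?_)
  rw [coeff_pl]
  exact h

/-- an entire root through a given root at the origin -/
theorem entire_root {m : ℕ} {g : ℂ → Fin (m + 1) → ℂ} (hg : Differentiable ℂ g) (h0 : ∀ z, g z 0 ≠ 0)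
    (hs : ∀ z, (pl (g z)).Separable) {t0 : ℂ} (ht : pv (cc g) 0 t0 = 0) :
    ∃ ρ : ℂ → ℂ, Differentiable ℂ ρ ∧ ρ 0 = t0 ∧ ∀ w, pv (cc g) w (ρ w) = 0 := by
  have hd : ∀ j, Differentiable ℂ (cc g j) := fun j => (differentiable_pi.1 hg) (Fin.rev j)
  have hl : ∀ w, cc g (Fin.last m) w ≠ 0 := fun w => by
    rw [cc_last]
    exact h0 w
  obtain ⟨ρ, hρ, hρ0, hρr⟩ := lift_root (X := ℂ) (P := fun w τ => pv (cc g) w τ)
    (by
      unfold pv
      exact continuous_finsetSum _ fun j _ =>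
        ((hd j).continuous.comp continuous_fst).mul (continuous_snd.pow _))
    (fun w => 1 + ∑ j, ‖cc g j w / cc g (Fin.last m) w‖)
    (continuous_const.add (continuous_finsetSum _ fun j _ =>
      ((hd j).continuous.div (hd _).continuous fun w => hl w).norm))
    (fun w τ h => pv_bound (hl w) h)
    (by
      intro w τ hw
      obtain ⟨ψ, h1, h2, h3⟩ := local_root (fun j => (hd j).analyticAt w) hw (simple (hs w) hw)
      exact ⟨ψ, h1.continuousAt, h2, h3⟩)
    (fun w => pv_fin (hl w)) 0 t0 ht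
  refine ⟨ρ, fun w => ?_, hρ0, hρr⟩
  obtain ⟨ψ, h1, h2, h3⟩ := local_root (fun j => (hd j).analyticAt w) (hρr w) (simple (hs w) (hρr w))
  refine h1.congr_of_eventuallyEq ?_
  have h4 : Tendsto (fun v : ℂ => (v, ρ v)) (𝓝 w) (𝓝 (w, ρ w)) := by
    have h5 : Continuous (fun v : ℂ => (v, ρ v)) := by fun_prop
    exact h5.tendsto _
  filter_upwards [h4.eventually h3] with v h6
  exact (h6.1 (hρr v)).symm

/-- root functions which differ at one point differ everywhere -/
theorem root_ne {m : ℕ} {g : ℂ → Fin (m + 1) → ℂ} (hg : Differentiable ℂ g)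
    (hs : ∀ z, (pl (g z)).Separable) {ρ σ : ℂ → ℂ} (hρ : Continuous ρ) (hσ : Continuous σ)
    (hρr : ∀ w, pv (cc g) w (ρ w) = 0) (hσr : ∀ w, pv (cc g) w (σ w) = 0) (h : ρ 0 ≠ σ 0) (z : ℂ) :
    ρ z ≠ σ z := by
  have hd : ∀ j, Differentiable ℂ (cc g j) := fun j => (differentiable_pi.1 hg) (Fin.rev j)
  have hclosed : IsClosed {z | ρ z = σ z} := isClosed_eq hρ hσ
  have hopen : IsOpen {z | ρ z = σ z} := by
    rw [isOpen_iff_mem_nhds]
    intro w hw
    rw [Set.mem_ofPred_eq] at hw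
    obtain ⟨ψ, h1, h2, h3⟩ := local_root (fun j => (hd j).analyticAt w) (hρr w) (simple (hs w) (hρr w))
    have h4 : Tendsto (fun v : ℂ => (v, ρ v)) (𝓝 w) (𝓝 (w, ρ w)) := by
      have h5 : Continuous (fun v : ℂ => (v, ρ v)) := by fun_prop
      exact h5.tendsto _
    have h5 : Tendsto (fun v : ℂ => (v, σ v)) (𝓝 w) (𝓝 (w, ρ w)) := by
      have h6 : Continuous (fun v : ℂ => (v, σ v)) := by fun_prop
      rw [hw]
      exact h6.tendsto _
    filter_upwards [h4.eventually h3, h5.eventually h3] with v h6 h7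
    show ρ v = σ v
    exact (h6.1 (hρr v)).symm.trans (h7.1 (hσr v))
  rcases isClopen_iff.1 ⟨hclosed, hopen⟩ with h1 | h1
  · intro h2
    have : z ∈ {z | ρ z = σ z} := h2
    rw [h1] at this
    exact this
  · exfalso
    have : (0 : ℂ) ∈ {z | ρ z = σ z} := by
      rw [h1]
      exact Set.mem_univ _
    exact h this

end R1

open R1 Pool.Agent.H910.Dsc in
theorem t_roots : S_roots := by
  classical
  intro m hm g hg h0 hs
  -- the roots at the origin
  have hcard : (pl (g 0)).roots.toFinset.card = m := by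
    have h1 : Multiset.card (pl (g 0)).roots = (pl (g 0)).natDegree :=
      (Polynomial.splits_iff_card_roots.1 (IsAlgClosed.splits (pl (g 0))))
    rw [Multiset.toFinset_card_of_nodup (Polynomial.nodup_roots (hs 0)), h1, deg_eq (h0 0)]
  have e := Finset.equivFinOfCardEq hcard
  have hne : ∀ z, pl (g z) ≠ 0 := fun z h => by
    have h1 := coeff_pl (g z)
    rw [h, Polynomial.coeff_zero] at h1
    exact h0 z h1.symm
  have ht : ∀ j : Fin m, pv (cc g) 0 ((e.symm j : ℂ)) = 0 := by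
    intro j
    have h1 := (e.symm j).2
    rw [Multiset.mem_toFinset, Polynomial.mem_roots (hne 0), Polynomial.IsRoot, eval_pl] at h1
    exact h1
  choose ρ hρd hρ0 hρr using fun j => entire_root hg h0 hs (ht j)
  have hinj : ∀ i j : Fin m, i ≠ j → ∀ z, ρ i z ≠ ρ j z := by
    intro i j hij z
    refine root_ne hg hs (hρd i).continuous (hρd j).continuous (hρr i) (hρr j) ?_ z
    rw [hρ0, hρ0]
    intro h
    exact hij (e.symm.injective (Subtype.ext h))
  -- the factorisation
  have hfac : ∀ z, pl (g z) = C (g z 0) * ∏ j, (X - C (ρ j z)) := by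
    intro z
    have hnd : (Finset.univ.val.map fun j => ρ j z).Nodup := by
      refine Multiset.Nodup.map ?_ Finset.univ.nodup
      intro i j hij
      by_contra hcon
      exact hinj i j hcon z hij
    have hle : (Finset.univ.val.map fun j => ρ j z) ≤ (pl (g z)).roots := by
      rw [Multiset.le_iff_subset hnd]
      intro x hx
      obtain ⟨j, _, rfl⟩ := Multiset.mem_map.1 hx
      rw [Polynomial.mem_roots (hne z), Polynomial.IsRoot, eval_pl]
      exact hρr j z
    have hc1 : Multiset.card (Finset.univ.val.map fun j => ρ j z) = m := by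
      rw [Multiset.card_map, Finset.card_val, Finset.card_univ, Fintype.card_fin]
    have heq : (Finset.univ.val.map fun j => ρ j z) = (pl (g z)).roots := by
      refine Multiset.eq_of_le_of_card_le hle ?_
      rw [hc1]
      exact (Polynomial.card_roots' _).trans (deg_le _)
    have h2 : Multiset.card (pl (g z)).roots = (pl (g z)).natDegree := by
      rw [← heq, hc1, deg_eq (h0 z)]
    have h3 := Polynomial.C_leadingCoeff_mul_prod_multiset_X_sub_C h2
    rw [← heq, Multiset.map_map] at h3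
    have h4 : (pl (g z)).leadingCoeff = g z 0 := by
      rw [Polynomial.leadingCoeff, deg_eq (h0 z), coeff_pl]
    rw [h4] at h3
    rw [← h3]
    rfl
  set i0 : Fin m := ⟨0, by omega⟩ with hi0
  set i1 : Fin m := ⟨1, by omega⟩ with hi1
  have h01 : i1 ≠ i0 := by
    rw [hi0, hi1]
    intro h
    have := congrArg Fin.val h
    simp at this
  have ha : ∀ z, ρ i1 z - ρ i0 z ≠ 0 := fun z => sub_ne_zero.2 (hinj i1 i0 h01 z)
  have hconst : ∀ j z, (ρ j z - ρ i0 z) / (ρ i1 z - ρ i0 z) = (ρ j 0 - ρ i0 0) / (ρ i1 0 - ρ i0 0) := by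
    intro j z
    by_cases hj0 : j = i0
    · subst hj0
      rw [sub_self, sub_self, zero_div, zero_div]
    by_cases hj1 : j = i1
    · subst hj1
      rw [div_self (ha z), div_self (ha 0)]
    have hd : Differentiable ℂ (fun z => (ρ j z - ρ i0 z) / (ρ i1 z - ρ i0 z)) :=
      ((hρd j).sub (hρd i0)).div ((hρd i1).sub (hρd i0)) ha
    refine Pool.Agent.H187R3.little_picard hd (a := 0) (b := 1) zero_ne_one (fun w => ?_) (fun w => ?_) z 0
    · exact div_ne_zero (sub_ne_zero.2 (hinj j i0 hj0 w)) (ha w)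
    · intro h1
      have h1 : (ρ j w - ρ i0 w) / (ρ i1 w - ρ i0 w) = 1 := h1
      rw [div_eq_one_iff_eq (ha w)] at h1
      exact hinj j i1 hj1 w (sub_left_injective h1)
  refine ⟨fun z => ρ i1 z - ρ i0 z, ρ i0, fun j => (ρ j 0 - ρ i0 0) / (ρ i1 0 - ρ i0 0),
    (hρd i1).sub (hρd i0), hρd i0, ha, ?_, ?_⟩
  · intro i j hij
    have hij : (ρ i 0 - ρ i0 0) / (ρ i1 0 - ρ i0 0) = (ρ j 0 - ρ i0 0) / (ρ i1 0 - ρ i0 0) := hij
    by_contra hcon
    rw [div_left_inj' (ha 0)] at hij
    exact hinj i j hcon 0 (sub_left_injective hij)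
  · intro z
    rw [hfac z]
    congr 1
    refine Finset.prod_congr rfl fun j _ => ?_
    have h1 : (ρ i1 z - ρ i0 z) * ((ρ j 0 - ρ i0 0) / (ρ i1 0 - ρ i0 0)) + ρ i0 z = ρ j z := by
      rw [← hconst j z, mul_div_cancel₀ _ (ha z)]
      ring
    show X - C (ρ j z) = X - C ((ρ i1 z - ρ i0 z) * ((ρ j 0 - ρ i0 0) / (ρ i1 0 - ρ i0 0)) + ρ i0 z)
    rw [h1]

end Pool.Agent.H910.Kh
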