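import Pool.Agent.H910.Kh.Ent
import Pool.Agent.H910.Kh.Roots
import Pool.Agent.H910.Kh.Fin
import Pool.Agent.H910.Dsc.Ext
import Pool.Agent.H910.Dsc.HypD

/-!
Entire curves in hypersurfaces in general position, outside the discriminant hypersurface and the
hyperplane of the polynomials of lower degree.
-/

set_option autoImplicit false

open Polynomial

namespace Pool.Agent.H910.Kh

theorem coeff_pl {m : ℕ} (v : Fin (m + 1) → ℂ) (l : Fin (m + 1)) :
    (pl v).coeff (m - (l : ℕ)) = v l := by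
  classical
  unfold pl
  rw [finset_sum_coeff, Finset.sum_eq_single l]
  · rw [coeff_C_mul, coeff_X_pow, if_pos rfl, mul_one]
  · intro b _ hb
    rw [coeff_C_mul, coeff_X_pow, if_neg, mul_zero]
    intro h
    apply hb
    apply Fin.ext
    have := b.2
    have := l.2
    omega
  · intro h
    exact absurd (Finset.mem_univ _) h

theorem cf_pl {m : ℕ} (v : Fin (m + 1) → ℂ) : cf m (pl v) = v := by
  funext l
  exact coeff_pl v l

theorem aeval_eq {σ : Type} (v : σ → ℂ) (p : MvPolynomial σ ℂ) :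
    MvPolynomial.aeval v p = MvPolynomial.eval v p :=
  congrFun (congrArg DFunLike.coe (MvPolynomial.coe_aeval_eq_eval v)) _

/-- **Entire curves in hypersurfaces in general position.** -/
theorem hyp_of_good {m d : ℕ} (hm : 2 ≤ m) {F : MvPolynomial (Fin (m + 1)) ℂ}
    (hF : F.IsHomogeneous d) (hgood : Good F) {f : ℂ → Fin (m + 1) → ℂ} (hf : Differentiable ℂ f)
    (hmem : ∀ z, MvPolynomial.eval (f z) F = 0)
    (hoff : ∀ z, f z 0 ≠ 0 ∧ (pl (f z)).Separable) : ∀ z, ∃ c : ℂ, f z = c • f 0 := by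
  obtain ⟨a, b, c, ha, hb, hane, hc, hpl⟩ := t_roots m hm f hf (fun z => (hoff z).1)
    (fun z => (hoff z).2)
  have hfz : ∀ z, f z = f z 0 • cf m (∏ j, (X - C (a z * c j + b z))) := by
    intro z
    funext l
    have h1 := coeff_pl (f z) l
    rw [hpl z, coeff_C_mul] at h1
    rw [Pi.smul_apply, smul_eq_mul]
    exact h1.symm
  have hmem' : ∀ z, MvPolynomial.eval (cf m (∏ j, (X - C (a z * c j + b z)))) F = 0 := by
    intro z
    have h1 := hmem z
    rw [hfz z] at h1
    have h2 : MvPolynomial.eval (f z 0 • cf m (∏ j, (X - C (a z * c j + b z)))) F =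
        f z 0 ^ d * MvPolynomial.eval (cf m (∏ j, (X - C (a z * c j + b z)))) F := by
      have h3 := Pool.Agent.W602.GT.val_smul (L := ℂ) hF (f z 0)
        (cf m (∏ j, (X - C (a z * c j + b z))))
      unfold Pool.Agent.W602.GT.val at h3
      rw [aeval_eq, aeval_eq] at h3
      exact h3
    rw [h2] at h1
    exact (mul_eq_zero.1 h1).resolve_left (pow_ne_zero _ (hoff z).1)
  have hconst := t_fin t_alg m d hm F hF hgood a b c ha hb hane hc hmem'
  intro z
  refine ⟨f z 0 / f 0 0, ?_⟩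
  obtain ⟨h1, h2⟩ := hconst z 0
  have e1 : f z = f z 0 • cf m (∏ j, (X - C (a 0 * c j + b 0))) := by
    have := hfz z
    rwa [h1, h2] at this
  have e2 : (f z 0 / f 0 0) • f 0 = (f z 0 / f 0 0 * f 0 0) •
      cf m (∏ j, (X - C (a 0 * c j + b 0))) := by
    rw [← smul_smul, ← hfz 0]
  rw [e2, div_mul_cancel₀ _ (hoff 0).1]
  exact e1

/-- the hypersurface of the polynomials of lower degree or with multiple roots -/
noncomputable def dd (n : ℕ) : MvPolynomial (Fin (n + 2)) ℂ :=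
  MvPolynomial.X 0 * MvPolynomial.rename Fin.rev (Pool.Agent.H910.Dsc.dscP n)

theorem dd_hom (n : ℕ) : (dd n).IsHomogeneous (2 * n + 1) := by
  have h1 := (MvPolynomial.isHomogeneous_X ℂ (0 : Fin (n + 2))).mul
    ((Pool.Agent.H910.Dsc.hom_dscP n).rename_isHomogeneous (f := Fin.rev))
  have h2 : 2 * n + 1 = 1 + 2 * n := by ring
  unfold dd
  exact h2 ▸ h1

theorem dd_eval (n : ℕ) (v : Fin (n + 2) → ℂ) : MvPolynomial.eval v (dd n) =
    v 0 * Pool.Agent.Y216.bdisc (fun j => v (Fin.rev j)) := by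
  unfold dd
  rw [map_mul, MvPolynomial.eval_X, MvPolynomial.eval_rename]
  congr 1
  have h1 := Pool.Agent.H910.Dsc.aeval_dscP (n := n) (fun j => v (Fin.rev j))
  rw [← h1]
  exact (congrFun (congrArg DFunLike.coe (MvPolynomial.coe_aeval_eq_eval
    (fun j => v (Fin.rev j)))) _).symm

theorem pl_eq_pol {n : ℕ} (v : Fin (n + 2) → ℂ) :
    pl (m := n + 1) v = Pool.Agent.Y216.pol (fun j => v (Fin.rev j)) := by
  unfold pl Pool.Agent.Y216.pol
  rw [← Equiv.sum_comp Fin.revPerm]
  refine Finset.sum_congr rfl fun j _ => ?_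
  rw [Fin.revPerm_apply]
  congr 2
  rw [Fin.val_rev]
  have := j.2
  omega

/-- **the discriminant** -/
theorem dd_iff {n : ℕ} (v : Fin (n + 2) → ℂ) : MvPolynomial.eval v (dd n) ≠ 0 ↔
    v 0 ≠ 0 ∧ (pl (m := n + 1) v).Separable := by
  rw [dd_eval, mul_ne_zero_iff]
  constructor
  · rintro ⟨h0, h1⟩
    refine ⟨h0, ?_⟩
    rw [pl_eq_pol, PerfectField.separable_iff_squarefree]
    refine (Pool.Agent.Y216.sqf_of_bdisc ?_ h1).1
    intro h
    have := congrFun h (Fin.last _)
    rw [Fin.rev_last] at this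
    exact h0 this
  · rintro ⟨h0, h1⟩
    refine ⟨h0, fun h => ?_⟩
    rw [pl_eq_pol] at h1
    obtain ⟨w, hw⟩ : ∃ w : Fin (n + 2) → ℂ, w = fun j => v (Fin.rev j) := ⟨_, rfl⟩
    rw [← hw] at h h1
    have hwl : w (Fin.last (n + 1)) ≠ 0 := by
      rw [hw]
      simp only [Fin.rev_last]
      exact h0
    have hF : Pool.Agent.Y216.pol w ≠ 0 := Pool.Agent.Y216.LG.pol_ne fun h => hwl (congrFun h _)
    have hdeg : (Pool.Agent.Y216.pol w).natDegree = n + 1 := by
      apply le_antisymm (Pool.Agent.Y216.natDegree_pol_le w)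
      apply le_natDegree_of_ne_zero
      have := Pool.Agent.Y216.coeff_pol w (Fin.last (n + 1))
      rw [Fin.val_last] at this
      rw [this]
      exact hwl
    rw [Pool.Agent.H910.Dsc.bdisc_eq] at h
    obtain ⟨r, hr, -, hcoef⟩ := Pool.Agent.Y190.BV.exists_roots (L := ℂ) (Pool.Agent.Y216.pol w)
      h1 (IsAlgClosed.splits _)
    have hRD : Pool.Agent.H910.Dsc.RD (Pool.Agent.Y216.pol w) n
        (Fin (Pool.Agent.Y216.pol w).natDegree) r := by
      refine ⟨hr, ?_, hF, ?_⟩
      · ext j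
        rw [coeff_map, hcoef j]
        unfold Pool.Agent.H910.Dsc.pr
        rw [coeff_C_mul]
      · rw [Fintype.card_fin]
        omega
    have h2 : Pool.Agent.H910.Dsc.dsf n ((Pool.Agent.Y216.pol w).map (algebraMap ℂ ℂ)) ≠ 0 := by
      rw [hRD.eq]
      exact Pool.Agent.H910.Dsc.dsf_ne hRD.lead hRD.inj hRD.card
    apply h2
    rw [Pool.Agent.H910.Dsc.map_dsf, h, map_zero]

end Pool.Agent.H910.Kh
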