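import Pool.Agent.H910.Kh.Stm

/-!
Polynomial parametrisations of plane curves with simple points over zero.
-/

set_option autoImplicit false

open Polynomial

namespace Pool.Agent.H910.Kh

theorem root_unique {H : ℂ[X][X]} (hs : (H.map (evalRingHom (0 : ℂ))).Separable) {q q' : ℂ[X]}
    (h : H.eval q = 0) (h' : H.eval q' = 0) (h0 : q.eval 0 = q'.eval 0) : q = q' := by
  by_contra hne
  obtain ⟨H1, hH1⟩ := dvd_iff_isRoot.2 h
  rw [hH1, eval_mul, eval_sub, eval_X, eval_C] at h'
  have h1 : H1.eval q' = 0 := by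
    rcases mul_eq_zero.1 h' with h2 | h2
    · exact absurd (sub_eq_zero.1 h2).symm hne
    · exact h2
  obtain ⟨H2, hH2⟩ := dvd_iff_isRoot.2 h1
  have h2 := hs.squarefree
  have h3 := h2 (X - C (q.eval 0)) ⟨H2.map (evalRingHom 0), by
    rw [hH1, hH2]
    simp only [Polynomial.map_mul, Polynomial.map_sub, map_X, map_C, coe_evalRingHom]
    rw [h0]
    ring⟩
  exact not_isUnit_X_sub_C _ h3

theorem map_comp_eq (G : ℂ[X][X]) (p r : ℂ[X]) :
    (G.map (compRingHom p)).map (compRingHom r) = G.map (compRingHom (p.comp r)) := by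
  rw [Polynomial.map_map]
  congr 1
  ext x <;> simp

/-- the parametrisation of a curve with simple points over zero, totally ramified over zero -/
theorem coeff_param {G : ℂ[X][X]} (hs : (G.map (evalRingHom (0 : ℂ))).Separable) {c : ℂ} {e : ℕ}
    (he : 0 < e) {q : ℂ[X]} (h : (G.map (compRingHom (C c * X ^ e))).eval q = 0) (j : ℕ)
    (hj : ¬ e ∣ j) : q.coeff j = 0 := by
  obtain ⟨ζ, hζ⟩ : ∃ ζ : ℂ, IsPrimitiveRoot ζ e := ⟨_, Complex.isPrimitiveRoot_exp e he.ne'⟩
  have h1 : ((G.map (compRingHom (C c * X ^ e))).map (compRingHom (C ζ * X))) =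
      G.map (compRingHom (C c * X ^ e)) := by
    rw [map_comp_eq]
    congr 2
    rw [mul_comp, C_comp, pow_comp, X_comp, mul_pow, ← C_pow, hζ.pow_eq_one, C_1, one_mul]
  have h2 : (G.map (compRingHom (C c * X ^ e))).eval (q.comp (C ζ * X)) = 0 := by
    have h3 : (G.map (compRingHom (C c * X ^ e))).eval (q.comp (C ζ * X)) =
        ((G.map (compRingHom (C c * X ^ e))).eval q).comp (C ζ * X) := by
      conv_lhs => rw [← h1]
      rw [eval_map]
      have h4 := hom_eval₂ (G.map (compRingHom (C c * X ^ e))) (RingHom.id _)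
        (compRingHom (C ζ * X)) q
      rw [RingHom.comp_id] at h4
      rw [← eval₂_id, coe_compRingHom_apply] at *
      exact h4.symm
    rw [h3, h, zero_comp]
  have h5 : ((G.map (compRingHom (C c * X ^ e))).map (evalRingHom (0 : ℂ))).Separable := by
    have h6 : (G.map (compRingHom (C c * X ^ e))).map (evalRingHom (0 : ℂ)) =
        G.map (evalRingHom (0 : ℂ)) := by
      rw [Polynomial.map_map]
      congr 1
      ext x
      · simp
      · simp [he.ne']
    rw [h6]
    exact hs
  have h7 := root_unique h5 h h2 (by simp [eval_comp])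
  have h8 := congrArg (fun p => p.coeff j) h7
  simp only [comp_C_mul_X_coeff] at h8
  by_contra hq
  have h9 : ζ ^ j = 1 := by
    have : q.coeff j * (ζ ^ j - 1) = 0 := by
      rw [mul_sub, ← h8, mul_one, sub_self]
    rcases mul_eq_zero.1 this with h | h
    · exact absurd h hq
    · exact sub_eq_zero.1 h
  exact hj ((hζ.pow_eq_one_iff_dvd j).1 h9)

theorem eq_expand {e : ℕ} (he : 0 < e) {q : ℂ[X]} (h : ∀ j, ¬ e ∣ j → q.coeff j = 0) :
    q = expand ℂ e (contract e q) := by
  ext j
  rw [coeff_expand he]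
  split_ifs with hj
  · rw [coeff_contract he.ne', Nat.div_mul_cancel hj]
  · exact h j hj

/-- the degree of the parametrisation -/
theorem natDegree_le_one {G : ℂ[X][X]} {D : ℕ}
    (hG : ∀ j, G.coeff j ≠ 0 → (G.coeff j).natDegree + j ≤ D) (hD : G.coeff D ≠ 0) {c : ℂ}
    {q : ℂ[X]} (h : (G.map (compRingHom (C c * X ^ 1))).eval q = 0) : q.natDegree ≤ 1 := by
  by_contra hcon
  rw [not_le] at hcon
  obtain ⟨k, hk⟩ : ∃ k, k = q.natDegree := ⟨_, rfl⟩
  rw [← hk] at hcon
  have hGd : G.natDegree ≤ D := by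
    rw [natDegree_le_iff_coeff_eq_zero]
    intro j hj
    by_contra h0
    have := hG j h0
    omega
  have hD0 : (G.coeff D).natDegree = 0 := by
    have := hG D hD
    omega
  obtain ⟨γ, hγ⟩ : ∃ γ, G.coeff D = C γ := ⟨_, eq_C_of_natDegree_eq_zero hD0⟩
  have hγ0 : γ ≠ 0 := by
    rintro rfl
    rw [C_0] at hγ
    exact hD hγ
  rw [eval_map, eval₂_eq_sum_range' _ (lt_of_le_of_lt hGd (Nat.lt_succ_self D)),
    Finset.sum_range_succ] at h
  have h1 : (compRingHom (C c * X ^ 1)) (G.coeff D) = C γ := by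
    rw [hγ, coe_compRingHom_apply, C_comp]
  rw [h1] at h
  have hq0 : q ≠ 0 := by
    rintro rfl
    rw [natDegree_zero] at hk
    omega
  have h2 : (∑ i ∈ Finset.range D, (compRingHom (C c * X ^ 1)) (G.coeff i) * q ^ i).coeff (D * k) =
      0 := by
    rw [finset_sum_coeff]
    refine Finset.sum_eq_zero fun i hi => ?_
    rw [Finset.mem_range] at hi
    apply coeff_eq_zero_of_natDegree_lt
    by_cases h0 : G.coeff i = 0
    · rw [h0, map_zero, zero_mul, natDegree_zero]
      have : 0 < D := by omega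
      positivity
    · have h3 := hG i h0
      have h4 : ((compRingHom (C c * X ^ 1)) (G.coeff i)).natDegree ≤ (G.coeff i).natDegree := by
        rw [coe_compRingHom_apply, natDegree_comp]
        have h5 : (C c * X ^ 1 : ℂ[X]).natDegree ≤ 1 := by
          rw [pow_one]
          exact (natDegree_C_mul_le c X).trans natDegree_X_le
        nlinarith
      have h5 : ((compRingHom (C c * X ^ 1)) (G.coeff i) * q ^ i).natDegree ≤
          (G.coeff i).natDegree + i * k := by
        refine natDegree_mul_le.trans ?_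
        rw [natDegree_pow, ← hk]
        omega
      refine lt_of_le_of_lt h5 ?_
      have h6 : (D - i) * 1 < (D - i) * k := Nat.mul_lt_mul_of_pos_left hcon (by omega)
      have h7 : D * k = (D - i) * k + i * k := by
        rw [← add_mul, Nat.sub_add_cancel hi.le]
      omega
  have h3 : (C γ * q ^ D).coeff (D * k) ≠ 0 := by
    rw [coeff_C_mul]
    refine mul_ne_zero hγ0 ?_
    rw [hk, ← natDegree_pow, coeff_natDegree]
    exact leadingCoeff_ne_zero.2 (pow_ne_zero _ hq0)
  apply h3
  have h4 := congrArg (fun p => p.coeff (D * k)) h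
  simp only [coeff_add, h2, zero_add, coeff_zero] at h4
  exact h4

end Pool.Agent.H910.Kh
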