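import Mathlib

/-!
Entire curves in general hypersurfaces of the space of polynomials, outside the discriminant
hypersurface: definitions and the statements of the steps.
-/

set_option autoImplicit false

open Polynomial

namespace Pool.Agent.H910.Kh

/-- the polynomial of degree at most `m` with the coefficients `v`, the leading one first -/
noncomputable def pl {m : ℕ} (v : Fin (m + 1) → ℂ) : ℂ[X] := ∑ l, C (v l) * X ^ (m - (l : ℕ))

/-- the coefficients, the leading one first, of a polynomial of degree at most `m` -/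
noncomputable def cf (m : ℕ) {R : Type} [CommRing R] (p : R[X]) : Fin (m + 1) → R :=
  fun l => p.coeff (m - (l : ℕ))

/-- The hypersurface `F = 0` does not pass through the constant polynomials, and at each point
`(x - T) ^ m` of it the tangent hyperplane does not contain `(x - T) ^ (m - k)`, `1 ≤ k ≤ m`. -/
def Good {m : ℕ} (F : MvPolynomial (Fin (m + 1)) ℂ) : Prop :=
  MvPolynomial.eval (Pi.single (Fin.last m) 1) F ≠ 0 ∧
    ∀ T : ℂ, MvPolynomial.eval (cf m ((X - C T) ^ m)) F = 0 → ∀ k : ℕ, 1 ≤ k → k ≤ m →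
      ∑ i, MvPolynomial.eval (cf m ((X - C T) ^ m)) (MvPolynomial.pderiv i F) *
        cf m ((X - C T) ^ (m - k)) i ≠ 0

/-- Step 1. -/
def S_roots : Prop := ∀ (m : ℕ), 2 ≤ m → ∀ g : ℂ → Fin (m + 1) → ℂ, Differentiable ℂ g →
  (∀ z, g z 0 ≠ 0) → (∀ z, (pl (g z)).Separable) →
    ∃ (a b : ℂ → ℂ) (c : Fin m → ℂ), Differentiable ℂ a ∧ Differentiable ℂ b ∧ (∀ z, a z ≠ 0) ∧
      Function.Injective c ∧ ∀ z, pl (g z) = C (g z 0) * ∏ j, (X - C (a z * c j + b z))

/-- Step 2. -/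
def S_alg : Prop := ∀ (a b : ℂ → ℂ), Differentiable ℂ a → Differentiable ℂ b → (∀ z, a z ≠ 0) →
  ∀ (G : ℂ[X][X]) (D : ℕ), (∀ j, G.coeff j ≠ 0 → (G.coeff j).natDegree + j ≤ D) →
    G.coeff D ≠ 0 → (G.map (evalRingHom (0 : ℂ))).Separable →
    (∀ z, (G.map (evalRingHom (a z))).eval (b z) = 0) →
      (∃ c, ∀ z, a z = c) ∨ ∃ α β : ℂ, ∀ z, b z = α * a z + β

/-- Step 3. -/
def S_gen : Prop := ∀ (m d : ℕ), 1 ≤ m → 1 ≤ d → ∃ P : MvPolynomial (Fin (m + 1) →₀ ℕ) ℂ,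
  (∃ F₀ : MvPolynomial (Fin (m + 1)) ℂ, F₀.IsHomogeneous d ∧
    MvPolynomial.eval (fun s => F₀.coeff s) P ≠ 0) ∧
  ∀ F : MvPolynomial (Fin (m + 1)) ℂ, F.IsHomogeneous d →
    MvPolynomial.eval (fun s => F.coeff s) P ≠ 0 → Good F

/-- Step 4. -/
def S_fin : Prop := ∀ (m d : ℕ), 2 ≤ m → ∀ F : MvPolynomial (Fin (m + 1)) ℂ, F.IsHomogeneous d →
  Good F → ∀ (a b : ℂ → ℂ) (c : Fin m → ℂ), Differentiable ℂ a → Differentiable ℂ b →
    (∀ z, a z ≠ 0) → Function.Injective c →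
    (∀ z, MvPolynomial.eval (cf m (∏ j, (X - C (a z * c j + b z)))) F = 0) →
      ∀ z w, a z = a w ∧ b z = b w

end Pool.Agent.H910.Kh
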