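import Pool.Agent.H910.Kh.Gen

/-!
Every hypersurface is in general position after a general linear transformation: statements of the
steps.
-/

set_option autoImplicit false

open Polynomial

namespace Pool.Agent.H910.Kh

/-- the form `F (B x)` -/
noncomputable def lin {m : ℕ} (B : Matrix (Fin (m + 1)) (Fin (m + 1)) ℂ)
    (F : MvPolynomial (Fin (m + 1)) ℂ) : MvPolynomial (Fin (m + 1)) ℂ :=
  MvPolynomial.aeval (fun i => ∑ j, MvPolynomial.C (B i j) * MvPolynomial.X j) F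

/-- Step 5: the polynomial of `Gen` does not vanish at the forms in general position. -/
def S_iff : Prop := ∀ (m d : ℕ), 1 ≤ m → 1 ≤ d → ∀ F : MvPolynomial (Fin (m + 1)) ℂ,
  F.IsHomogeneous d → Good F → MvPolynomial.eval (fun s => F.coeff s) (R3.PP m d) ≠ 0

/-- Step 6: a general line is transversal to a reduced hypersurface. -/
def S_line : Prop := ∀ (m d : ℕ), 1 ≤ d → ∀ F : MvPolynomial (Fin (m + 1)) ℂ,
  F.IsHomogeneous d → Squarefree F → ∃ u w : Fin (m + 1) → ℂ, MvPolynomial.eval u F ≠ 0 ∧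
    MvPolynomial.eval w F ≠ 0 ∧ ∀ s : ℂ, MvPolynomial.eval (u + s • w) F = 0 →
      ∑ i, MvPolynomial.eval (u + s • w) (MvPolynomial.pderiv i F) * w i ≠ 0

/-- Step 7: general linear transformations. -/
def S_gl : Prop := ∀ (m d : ℕ), 1 ≤ m → 1 ≤ d → ∀ F : MvPolynomial (Fin (m + 1)) ℂ,
  F.IsHomogeneous d → Squarefree F → ∃ Ψ : MvPolynomial (Fin (m + 1) × Fin (m + 1)) ℂ, Ψ ≠ 0 ∧
    ∀ B : Matrix (Fin (m + 1)) (Fin (m + 1)) ℂ, MvPolynomial.eval (fun p => B p.1 p.2) Ψ ≠ 0 →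
      IsUnit B.det ∧ Good (lin B F)

end Pool.Agent.H910.Kh
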